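import Pool.Agent.Q158.KL.Chain

/-!
# Certificates

`Cert k A B1 B2 D c e`: the inequalities between the table `c` on the residues modulo
`3 ^ (k + 1)` and the table `e` on the residues modulo `3 ^ k`.
-/

namespace Q158.KL

open Finset

/-- The certificate inequalities. -/
structure Cert (k A B1 B2 D : ℕ) (c e : ℕ → ℕ) : Prop where
  pos : ∀ i < 3 ^ (k + 1), 0 < c i
  h0 : ∀ i < 3 ^ (k + 1), i % 3 = 0 →
    D * c i ≤ A * c ((4 * i + 2) % 3 ^ (k + 1)) + B2 * e ((4 * (i / 3)) % 3 ^ k)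
  h1 : ∀ i < 3 ^ (k + 1), i % 3 = 1 → D * c i ≤ A * c ((4 * i + 2) % 3 ^ (k + 1))
  h2 : ∀ i < 3 ^ (k + 1), i % 3 = 2 →
    D * c i ≤ A * c ((4 * i + 2) % 3 ^ (k + 1)) + B1 * e ((2 * (i / 3) + 1) % 3 ^ k)
  h3 : ∀ i < 3 ^ (k + 1), e (i % 3 ^ k) ≤ c i

theorem vis_spec (P : Par) (c : ℕ) : ∀ l acc i, (vis P c l acc).testBit i = true →
    acc.testBit i = true ∨ ∃ u < c, (prv P)^[u + 1] l = i := by
  induction c with
  | zero => intro l acc i h; exact Or.inl h
  | succ c ih =>
    intro l acc i h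
    rcases ih _ _ _ h with h1 | ⟨u, hu, h1⟩
    · rw [Nat.testBit_or, Bool.or_eq_true] at h1
      rcases h1 with h1 | h1
      · exact Or.inl h1
      · refine Or.inr ⟨0, by omega, ?_⟩
        rw [Nat.shiftLeft_eq, one_mul, Nat.testBit_two_pow] at h1
        simpa using h1
    · exact Or.inr ⟨u + 1, by omega, by rw [Function.iterate_succ_apply]; exact h1⟩

/-- The chunks checked by the runs started at the elements of `L`. -/
def cov (P : Par) (k c : ℕ) : List ℕ → ℕ
  | [] => 0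
  | l :: L => vis P c ((prv P)^[k] l) (cov P k c L)

theorem cov_spec (P : Par) (k c : ℕ) (L : List ℕ) (i : ℕ) (h : (cov P k c L).testBit i = true) :
    ∃ l ∈ L, ∃ u < c, (prv P)^[k + u + 1] l = i := by
  induction L with
  | nil => simp [cov] at h
  | cons l L ih =>
    rcases vis_spec _ _ _ _ _ h with h1 | ⟨u, hu, h1⟩
    · obtain ⟨l', hl', h2⟩ := ih h1
      exact ⟨l', List.mem_cons_of_mem _ hl', h2⟩
    · refine ⟨l, List.mem_cons_self, u, hu, ?_⟩
      rw [← h1, ← Function.iterate_add_apply]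
      congr 1
      ring

/-- The chunks checked by several lists of runs. -/
def covs (P : Par) (k c : ℕ) : List (List ℕ) → ℕ
  | [] => 0
  | L :: LL => cov P k c L ||| covs P k c LL

theorem covs_spec (P : Par) (k c : ℕ) (LL : List (List ℕ)) (i : ℕ)
    (h : (covs P k c LL).testBit i = true) :
    ∃ L ∈ LL, ∃ l ∈ L, ∃ u < c, (prv P)^[k + u + 1] l = i := by
  induction LL with
  | nil => simp [covs] at h
  | cons L LL ih =>
    rw [covs, Nat.testBit_or, Bool.or_eq_true] at h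
    rcases h with h | h
    · exact ⟨L, List.mem_cons_self, cov_spec _ _ _ _ _ h⟩
    · obtain ⟨L', hL', h2⟩ := ih h
      exact ⟨L', List.mem_cons_of_mem _ hL', h2⟩

/-- If all runs succeed and they cover all chunks, there is a certificate. -/
theorem cert_of_runs (P : Par) (E : ℕ → ℕ) (hP : P.Ok) (hw2 : 2 ≤ P.w)
    (hE : ∀ l < 3 ^ P.s, E l < 2 ^ (P.w * 3 ^ P.h)) (k c : ℕ) (LL : List (List ℕ))
    (hL : ∀ L ∈ LL, ∀ l ∈ L, run P E c k l 0 = true)
    (hcov : covs P k c LL = 2 ^ 3 ^ (P.s + 1) - 1) :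
    Cert (P.s + P.h) P.A P.B1 P.B2 (2 ^ P.dd) (cc P (tab P E) (k + c)) (tab P E) := by
  have hall : ∀ l < 3 ^ (P.s + 1), Good P E (k + c) l := by
    intro l hl
    have h1 : (covs P k c LL).testBit l = true := by
      rw [hcov, Nat.testBit_two_pow_sub_one]
      simpa using hl
    obtain ⟨L, hL', l', hl', u, hu, rfl⟩ := covs_spec _ _ _ _ _ h1
    have := run_spec P E hP hw2 hE c k 0 l' 0 (rep_zero _ _ _) (hL _ hL' _ hl') u hu
    simpa using this
  have hn : 3 ^ (P.s + P.h + 1) = 3 ^ (P.s + 1) * 3 ^ P.h := by rw [← pow_add]; congr 1; ring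
  have key : ∀ i < 3 ^ (P.s + P.h + 1), 1 ≤ tab P E (i % 3 ^ (P.s + P.h)) ∧
      tab P E (i % 3 ^ (P.s + P.h)) ≤ cc P (tab P E) (k + c) i := by
    intro i hi
    have h1 := hall (i % 3 ^ (P.s + 1)) (Nat.mod_lt _ (by positivity)) (i / 3 ^ (P.s + 1)) (by
      rw [Nat.div_lt_iff_lt_mul (by positivity), mul_comm, ← hn]
      exact hi)
    rw [Nat.mod_add_div] at h1
    exact h1
  have hrec : ∀ i, 2 ^ P.dd * cc P (tab P E) (k + c) i ≤
      P.A * cc P (tab P E) (k + c) ((4 * i + 2) % 3 ^ (P.s + P.h + 1)) +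
        side P (tab P E) i := by
    intro i
    rcases hkc : k + c with _ | t
    · simp [cc]
    · calc 2 ^ P.dd * cc P (tab P E) (t + 1) i
          = (P.A * cc P (tab P E) t ((4 * i + 2) % 3 ^ (P.s + P.h + 1)) +
            side P (tab P E) i) / 2 ^ P.dd * 2 ^ P.dd := by rw [mul_comm]; rfl
        _ ≤ P.A * cc P (tab P E) t ((4 * i + 2) % 3 ^ (P.s + P.h + 1)) +
            side P (tab P E) i := Nat.div_mul_le_self _ _
        _ ≤ _ := Nat.add_le_add_right (Nat.mul_le_mul_left _ (cc_mono_succ _ _ _ _)) _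
  refine ⟨fun i hi => (key i hi).1.trans (key i hi).2, ?_, ?_, ?_, fun i hi => (key i hi).2⟩
  · intro i _ h
    have := hrec i
    rwa [side, if_pos h] at this
  · intro i _ h
    have := hrec i
    rwa [side, if_neg (by omega), if_neg (by omega), add_zero] at this
  · intro i _ h
    have := hrec i
    rwa [side, if_neg (by omega), if_pos h] at this

end Q158.KL
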