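import Pool.Agent.Q158.KL.Gather

/-!
# The chain iteration and its packed version

For a table `e` on the residues modulo `m` the functions `cc t` on the residues modulo `n = 3 m`
are defined by `cc 0 = 0` and `cc (t + 1) i = ⌊(A cc t (4 i + 2) + side i) / 2 ^ dd⌋`.  The packed
version computes lower bounds for whole residue classes modulo `S` at once.
-/

namespace Q158.KL

open Finset

/-- The table packed in the chunks `E`. -/
def tab (P : Par) (E : ℕ → ℕ) (j : ℕ) : ℕ :=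
  E (j % 3 ^ P.s) / 2 ^ (P.w * (j / 3 ^ P.s)) % 2 ^ (P.w - 1)

/-- The contribution of the second child. -/
def side (P : Par) (e : ℕ → ℕ) (i : ℕ) : ℕ :=
  if i % 3 = 0 then P.B2 * e ((4 * (i / 3)) % 3 ^ (P.s + P.h))
  else if i % 3 = 2 then P.B1 * e ((2 * (i / 3) + 1) % 3 ^ (P.s + P.h)) else 0

/-- The chain iteration. -/
def cc (P : Par) (e : ℕ → ℕ) : ℕ → ℕ → ℕ
  | 0, _ => 0
  | t + 1, i => (P.A * cc P e t ((4 * i + 2) % 3 ^ (P.s + P.h + 1)) + side P e i) / 2 ^ P.dd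

theorem cc_mono_succ (P : Par) (e : ℕ → ℕ) (t : ℕ) : ∀ i, cc P e t i ≤ cc P e (t + 1) i := by
  induction t with
  | zero => intro i; simp [cc]
  | succ t ih =>
    intro i
    rw [cc, cc]
    exact Nat.div_le_div_right (Nat.add_le_add_right (Nat.mul_le_mul_left _ (ih _)) _)

theorem cc_mono (P : Par) (e : ℕ → ℕ) {t t' : ℕ} (h : t ≤ t') (i : ℕ) :
    cc P e t i ≤ cc P e t' i := by
  induction h with
  | refl => exact le_rfl
  | step _ ih => exact ih.trans (cc_mono_succ P e _ i)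

/-- `X` packs a lower bound for the values of `cc t` on the chunk `l`. -/
def Rep (P : Par) (e : ℕ → ℕ) (t l X : ℕ) : Prop :=
  ∃ g : ℕ → ℕ, X = pk P.w (3 ^ P.h) g ∧ (∀ i < 3 ^ P.h, g i < 2 ^ (P.w - 1)) ∧
    ∀ i < 3 ^ P.h, g i ≤ cc P e t (l + 3 ^ (P.s + 1) * i)

/-- Conditions on the parameters. -/
structure Par.Ok (P : Par) : Prop where
  w1 : 1 ≤ P.w
  wd : P.w - 1 + P.dd ≤ P.w * 2
  L : 3 ^ P.h ≤ 2 ^ P.L
  AB1 : P.A + P.B1 ≤ 2 ^ P.w
  AB2 : P.A + P.B2 ≤ 2 ^ P.w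

theorem tab_chunk (P : Par) (E : ℕ → ℕ) (l i : ℕ) (hl : l < 3 ^ P.s) :
    tab P E (l + 3 ^ P.s * i) = E l / 2 ^ (P.w * i) % 2 ^ (P.w - 1) := by
  unfold tab
  rw [Nat.add_mul_mod_self_left, Nat.mod_eq_of_lt hl, Nat.add_mul_div_left _ _ (by positivity),
    Nat.div_eq_of_lt hl, zero_add]

theorem gather_tab (P : Par) (E : ℕ → ℕ) (hP : P.Ok) (p q l : ℕ) (hq : q < p) (hl : l < 3 ^ P.s)
    (hE : E l < 2 ^ (P.w * 3 ^ P.h)) :
    gs P.w p (3 ^ P.h) q (P.w - 1) (E l) = pk (P.w * p) (3 ^ P.h)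
      (fun i => tab P E (l + 3 ^ P.s * ((p * i + q) % 3 ^ P.h))) := by
  have hw : 0 < P.w := hP.w1
  conv_lhs => rw [exists_pk _ _ _ hE]
  rw [gs_spec _ _ _ _ _ hw (by positivity) hq (by omega) _
    (fun i _ => Nat.mod_lt _ (by positivity))]
  refine pk_congr _ _ fun i _ => ?_
  rw [tab_chunk _ _ _ _ hl]
  exact Nat.mod_mod_of_dvd _ (pow_dvd_pow 2 (by omega))

theorem gather_rep (P : Par) (hP : P.Ok) (p q : ℕ) (hq : q < p) (g : ℕ → ℕ)
    (hg : ∀ i < 3 ^ P.h, g i < 2 ^ (P.w - 1)) :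
    gs P.w p (3 ^ P.h) q (P.w - 1) (pk P.w (3 ^ P.h) g) = pk (P.w * p) (3 ^ P.h)
      (fun i => g ((p * i + q) % 3 ^ P.h)) := by
  have hw : 0 < P.w := hP.w1
  have h2 : 2 ^ (P.w - 1) ≤ 2 ^ P.w := Nat.pow_le_pow_right (by norm_num) (by omega)
  rw [gs_spec _ _ _ _ _ hw (by positivity) hq (by omega) _
    (fun i hi => (hg i hi).trans_le h2)]
  exact pk_congr _ _ fun i _ => Nat.mod_eq_of_lt (hg _ (Nat.mod_lt _ (by positivity)))

/-- Index computation: the entry `a l + c` of the chunk structure. -/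
theorem index_mod (S H a c l i : ℕ) (hS : 0 < S) :
    (a * (l + S * i) + c) % (S * H) = (a * l + c) % S + S * ((a * i + (a * l + c) / S) % H) := by
  have h1 : a * (l + S * i) + c = S * (a * i) + (a * l + c) := by ring
  rw [h1, Nat.mod_mul, Nat.mul_add_mod_self_left, Nat.mul_add_div hS]

theorem step_spec (P : Par) (E : ℕ → ℕ) (hP : P.Ok) (hE : ∀ l < 3 ^ P.s, E l < 2 ^ (P.w * 3 ^ P.h))
    (t l X : ℕ) (hl : l < 3 ^ (P.s + 1)) (hX : Rep P (tab P E) t ((4 * l + 2) % 3 ^ (P.s + 1)) X) :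
    Rep P (tab P E) (t + 1) l (step P E l X) := by
  obtain ⟨g, rfl, hg, hgc⟩ := hX
  have hw : 0 < P.w := hP.w1
  have h3h : 0 < 3 ^ P.h := by positivity
  have hpw : (2 : ℕ) ^ P.w = 2 * 2 ^ (P.w - 1) := by
    rw [← pow_succ']; congr 1; omega
  have h1w : 1 ≤ 2 ^ (P.w - 1) := Nat.one_le_two_pow
  have h2w : (2 : ℕ) ^ (P.w * 2) = 2 ^ P.w * 2 ^ P.w := by rw [← pow_add]; congr 1; ring
  have h4w : (2 : ℕ) ^ (P.w * 2) ≤ 2 ^ (P.w * 4) := Nat.pow_le_pow_right (by norm_num) (by omega)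
  have htab : ∀ j, tab P E j < 2 ^ (P.w - 1) := fun j => Nat.mod_lt _ (by positivity)
  -- the main child
  set q := (4 * l + 2) / 3 ^ (P.s + 1) with hq
  have hq4 : q < 4 := by
    rw [hq, Nat.div_lt_iff_lt_mul (by positivity)]
    have : 1 * 3 ≤ 3 ^ P.s * 3 := Nat.mul_le_mul_right _ (Nat.one_le_pow _ _ (by norm_num))
    rw [← pow_succ] at this
    omega
  have hmain : ∀ i < 3 ^ P.h, g ((4 * i + q) % 3 ^ P.h) ≤
      cc P (tab P E) t ((4 * (l + 3 ^ (P.s + 1) * i) + 2) % 3 ^ (P.s + P.h + 1)) := by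
    intro i _
    have e1 : 3 ^ (P.s + P.h + 1) = 3 ^ (P.s + 1) * 3 ^ P.h := by rw [← pow_add]; congr 1; ring
    rw [e1, index_mod _ _ _ _ _ _ (by positivity)]
    exact hgc _ (Nat.mod_lt _ h3h)
  have hgb : ∀ i, g ((4 * i + q) % 3 ^ P.h) < 2 ^ (P.w - 1) := fun i => hg _ (Nat.mod_lt _ h3h)
  have hgat := gather_rep P hP 4 q hq4 g hg
  have hS3 : (3 : ℕ) ^ (P.s + 1) = 3 * 3 ^ P.s := by rw [pow_succ]; ring
  have hdiv : ∀ i, (l + 3 ^ (P.s + 1) * i) / 3 = l / 3 + 3 ^ P.s * i := by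
    intro i
    rw [hS3, mul_assoc, Nat.add_mul_div_left _ _ (by norm_num)]
  have hmod : ∀ i, (l + 3 ^ (P.s + 1) * i) % 3 = l % 3 := by
    intro i
    rw [hS3, mul_assoc, Nat.add_mul_mod_self_left]
  have hl3 : l / 3 < 3 ^ P.s := by
    rw [Nat.div_lt_iff_lt_mul (by norm_num)]
    omega
  have hSH : 3 ^ (P.s + P.h) = 3 ^ P.s * 3 ^ P.h := by rw [← pow_add]
  -- bounds for the combinations
  have hbd : ∀ a b B, P.A + B ≤ 2 ^ P.w → a < 2 ^ (P.w - 1) → b < 2 ^ (P.w - 1) →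
      P.A * a + B * b < 2 ^ (P.w * 2) := by
    intro a b B hB ha hb
    rw [h2w]
    calc P.A * a + B * b ≤ P.A * 2 ^ (P.w - 1) + B * 2 ^ (P.w - 1) :=
          Nat.add_le_add (Nat.mul_le_mul_left _ ha.le) (Nat.mul_le_mul_left _ hb.le)
      _ = (P.A + B) * 2 ^ (P.w - 1) := by ring
      _ ≤ 2 ^ P.w * 2 ^ (P.w - 1) := Nat.mul_le_mul_right _ hB
      _ < 2 ^ P.w * 2 ^ P.w := Nat.mul_lt_mul_of_pos_left (by omega) (by positivity)
  have hdd4 : P.w - 1 + P.dd ≤ P.w * 4 := hP.wd.trans (by omega)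
  unfold step
  rcases (show l % 3 = 0 ∨ l % 3 = 1 ∨ l % 3 = 2 by omega) with h0 | h0 | h0
  · -- residue 0
    have hq' : (4 * (l / 3)) / 3 ^ P.s < 4 := by
      rw [Nat.div_lt_iff_lt_mul (by positivity)]
      omega
    simp only [h0, beq_self_eq_true, cond_true]
    rw [hgat, gather_tab P E hP 4 _ _ hq' (Nat.mod_lt _ (by positivity))
      (hE _ (Nat.mod_lt _ (by positivity))), pk_mul, pk_mul, pk_add, fl_spec _ _ _ _ (by positivity)
      hdd4 _ (fun i _ => (hbd _ _ _ hP.AB2 (hgb i) (htab _)).trans_le h4w),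
      cp_one _ _ _ _ hw (by norm_num) hP.L _ (fun i _ =>
        (Nat.mod_lt _ (by positivity)).trans_le (by omega))]
    refine ⟨_, rfl, fun i _ => Nat.mod_lt _ (by positivity), fun i hi => ?_⟩
    refine (Nat.mod_le _ _).trans ?_
    rw [cc]
    refine Nat.div_le_div_right (Nat.add_le_add (Nat.mul_le_mul_left _ (hmain i hi)) ?_)
    unfold side
    rw [hmod, if_pos h0, hdiv, hSH]
    have := index_mod (3 ^ P.s) (3 ^ P.h) 4 0 (l / 3) i (by positivity)
    simp only [add_zero] at this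
    rw [this]
  · -- residue 1
    simp only [h0]
    rw [show ((1 : ℕ) == 0) = false from rfl, cond_false, beq_self_eq_true, cond_true,
      hgat, pk_mul, fl_spec _ _ _ _ (by positivity)
      hdd4 _ (fun i _ => lt_of_le_of_lt (Nat.le_add_right _ (P.B1 * 0))
        ((hbd _ 0 _ hP.AB1 (hgb i) (by positivity)).trans_le h4w)),
      cp_one _ _ _ _ hw (by norm_num) hP.L _ (fun i _ =>
        (Nat.mod_lt _ (by positivity)).trans_le (by omega))]
    refine ⟨_, rfl, fun i _ => Nat.mod_lt _ (by positivity), fun i hi => ?_⟩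
    refine (Nat.mod_le _ _).trans ?_
    rw [cc]
    exact Nat.div_le_div_right ((Nat.mul_le_mul_left _ (hmain i hi)).trans (Nat.le_add_right _ _))
  · -- residue 2
    have hq' : (2 * (l / 3) + 1) / 3 ^ P.s < 2 := by
      rw [Nat.div_lt_iff_lt_mul (by positivity)]
      omega
    simp only [h0]
    rw [show ((2 : ℕ) == 0) = false from rfl, cond_false, show ((2 : ℕ) == 1) = false from rfl,
      cond_false, hgat, show P.w * 4 = P.w * 2 * 2 by ring,
      cp_one (P.w * 2) 2 _ _ (by positivity) (by norm_num) hP.L _ (fun i _ =>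
        (hgb i).trans_le (Nat.pow_le_pow_right (by norm_num) (by omega))),
      gather_tab P E hP 2 _ _ hq' (Nat.mod_lt _ (by positivity))
      (hE _ (Nat.mod_lt _ (by positivity))), pk_mul, pk_mul, pk_add, fl_spec _ _ _ _ (by positivity)
      hP.wd _ (fun i _ => hbd _ _ _ hP.AB1 (hgb i) (htab _)),
      cp_one _ _ _ _ hw (by norm_num) hP.L _ (fun i _ =>
        (Nat.mod_lt _ (by positivity)).trans_le (by omega))]
    refine ⟨_, rfl, fun i _ => Nat.mod_lt _ (by positivity), fun i hi => ?_⟩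
    refine (Nat.mod_le _ _).trans ?_
    rw [cc]
    refine Nat.div_le_div_right (Nat.add_le_add (Nat.mul_le_mul_left _ (hmain i hi)) ?_)
    unfold side
    rw [hmod, if_neg (by omega), if_pos h0, hdiv, hSH,
      index_mod (3 ^ P.s) (3 ^ P.h) 2 1 (l / 3) i (by positivity)]

theorem chk_spec (P : Par) (E : ℕ → ℕ) (hP : P.Ok) (hw2 : 2 ≤ P.w)
    (hE : ∀ l < 3 ^ P.s, E l < 2 ^ (P.w * 3 ^ P.h)) (t l Y : ℕ) (hl : l < 3 ^ (P.s + 1))
    (hY : Rep P (tab P E) t l Y) (h : chk P E l Y = true) :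
    ∀ i < 3 ^ P.h, 1 ≤ tab P E ((l + 3 ^ (P.s + 1) * i) % 3 ^ (P.s + P.h)) ∧
      tab P E ((l + 3 ^ (P.s + 1) * i) % 3 ^ (P.s + P.h)) ≤
        cc P (tab P E) t (l + 3 ^ (P.s + 1) * i) := by
  obtain ⟨g, rfl, hg, hgc⟩ := hY
  have hw : 0 < P.w := hP.w1
  have hlS : l / 3 ^ P.s < 3 := by
    rw [Nat.div_lt_iff_lt_mul (by positivity), ← pow_succ']
    exact hl
  have h2 : 2 ^ (P.w - 1) ≤ 2 ^ P.w := Nat.pow_le_pow_right (by norm_num) (by omega)
  have htab : ∀ j, tab P E j < 2 ^ (P.w - 1) := fun j => Nat.mod_lt _ (by positivity)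
  have hmod : l % 3 ^ P.s < 3 ^ P.s := Nat.mod_lt _ (by positivity)
  unfold chk at h
  rw [Bool.and_eq_true, gather_tab P E hP 3 _ _ hlS hmod (hE _ hmod),
    cp_one _ _ _ _ hw (by norm_num) hP.L _ (fun i _ => (htab _).trans_le h2),
    ones_eq _ _ hw] at h
  obtain ⟨h3, h4⟩ := h
  have h5 := leq_spec _ _ hw _ _ (fun i _ => htab _) hg h3
  have h6 := leq_spec _ _ hw _ _ (fun i _ => by
    have : 2 ^ 1 ≤ 2 ^ (P.w - 1) := Nat.pow_le_pow_right (by norm_num) (by omega)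
    omega) (fun i _ => htab _) h4
  intro i hi
  have e1 : (l + 3 ^ (P.s + 1) * i) % 3 ^ (P.s + P.h) =
      l % 3 ^ P.s + 3 ^ P.s * ((3 * i + l / 3 ^ P.s) % 3 ^ P.h) := by
    have e2 : l + 3 ^ (P.s + 1) * i = 3 ^ P.s * (3 * i) + l := by rw [pow_succ]; ring
    rw [pow_add 3 P.s P.h, Nat.mod_mul, e2, Nat.mul_add_mod_self_left,
      Nat.mul_add_div (by positivity)]
  rw [e1]
  exact ⟨h6 i hi, (h5 i hi).trans (hgc i hi)⟩

/-- The chunk `l` satisfies the certificate inequality with `cc t`. -/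
def Good (P : Par) (E : ℕ → ℕ) (t l : ℕ) : Prop :=
  ∀ i < 3 ^ P.h, 1 ≤ tab P E ((l + 3 ^ (P.s + 1) * i) % 3 ^ (P.s + P.h)) ∧
      tab P E ((l + 3 ^ (P.s + 1) * i) % 3 ^ (P.s + P.h)) ≤
        cc P (tab P E) t (l + 3 ^ (P.s + 1) * i)

theorem runC_spec (P : Par) (E : ℕ → ℕ) (hP : P.Ok) (hw2 : 2 ≤ P.w)
    (hE : ∀ l < 3 ^ P.s, E l < 2 ^ (P.w * 3 ^ P.h)) (c : ℕ) :
    ∀ t l X, Rep P (tab P E) t l X → runC P E c l X = true →
      ∀ u < c, Good P E (t + c) ((prv P)^[u + 1] l) := by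
  induction c with
  | zero => intro t l X _ _ u hu; omega
  | succ c ih =>
    intro t l X hX h u hu
    rw [runC, Bool.and_eq_true, Bool.and_eq_true, beq_iff_eq] at h
    obtain ⟨h1, h2, h3⟩ := h
    have hl : prv P l < 3 ^ (P.s + 1) := Nat.mod_lt _ (by positivity)
    have hY := step_spec P E hP hE t (prv P l) X hl (by rw [h1]; exact hX)
    rcases u with _ | u
    · have := chk_spec P E hP hw2 hE (t + 1) _ _ hl hY h2
      intro i hi
      refine ⟨(this i hi).1, (this i hi).2.trans (cc_mono _ _ (by omega) _)⟩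
    · have := ih (t + 1) _ _ hY h3 u (by omega)
      rw [show t + 1 + c = t + (c + 1) by ring] at this
      rw [Function.iterate_succ_apply]
      exact this

theorem run_spec (P : Par) (E : ℕ → ℕ) (hP : P.Ok) (hw2 : 2 ≤ P.w)
    (hE : ∀ l < 3 ^ P.s, E l < 2 ^ (P.w * 3 ^ P.h)) (c k : ℕ) :
    ∀ t l X, Rep P (tab P E) t l X → run P E c k l X = true →
      ∀ u < c, Good P E (t + k + c) ((prv P)^[k + u + 1] l) := by
  induction k with
  | zero =>
    intro t l X hX h u hu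
    have := runC_spec P E hP hw2 hE c t l X hX h u hu
    rwa [add_zero, zero_add]
  | succ k ih =>
    intro t l X hX h u hu
    rw [run, Bool.and_eq_true, beq_iff_eq] at h
    obtain ⟨h1, h3⟩ := h
    have hl : prv P l < 3 ^ (P.s + 1) := Nat.mod_lt _ (by positivity)
    have hY := step_spec P E hP hE t (prv P l) X hl (by rw [h1]; exact hX)
    have := ih (t + 1) _ _ hY h3 u hu
    rw [show t + 1 + k + c = t + (k + 1) + c by ring] at this
    rw [show k + 1 + u + 1 = (k + u + 1) + 1 by ring, Function.iterate_succ_apply]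
    exact this

theorem rep_zero (P : Par) (e : ℕ → ℕ) (l : ℕ) : Rep P e 0 l 0 :=
  ⟨fun _ => 0, by simp [pk], fun _ _ => by positivity, fun _ _ => Nat.zero_le _⟩

end Q158.KL
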