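import Pool.Agent.Q158.KL.Weight

/-!
# Counting the nodes of the backward tree
-/

namespace Q158.KL

open Finset

/-- The forward path of `v` reaches `ρ` after `j` steps through positive nodes `≤ X`. -/
def Path (d ρ X v : ℤ) (j : ℕ) : Prop :=
  (Gd d)^[j] v = ρ ∧ ∀ i ≤ j, Node d ((Gd d)^[i] v) ∧ 0 < (Gd d)^[i] v ∧ (Gd d)^[i] v ≤ X

theorem Path.cons {d ρ X v u : ℤ} {j : ℕ} (h : Path d ρ X v j) (hn : Node d u) (h0 : 0 < u)
    (hX : u ≤ X) (hG : Gd d u = v) : Path d ρ X u (j + 1) := by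
  refine ⟨by rw [Function.iterate_succ_apply, hG]; exact h.1, ?_⟩
  intro i hi
  rcases i with _ | i
  · exact ⟨hn, h0, hX⟩
  · rw [Function.iterate_succ_apply, hG]
    exact h.2 i (by omega)

theorem Path.tail {d ρ X v : ℤ} {j : ℕ} (h : Path d ρ X v (j + 1)) : Path d ρ X (Gd d v) j := by
  refine ⟨by rw [← Function.iterate_succ_apply]; exact h.1, ?_⟩
  intro i hi
  rw [← Function.iterate_succ_apply]
  exact h.2 (i + 1) (by omega)

open Classical in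
/-- Counting: in the backward tree of `ρ` there are at least `C (X / ρ) ^ γ` nodes in `(X, 4 X]` of
depth at most `K log (2 X)` all of whose proper descendants (forward iterates) are at most `X`. -/
theorem count_nodes {k A B1 B2 D : ℕ} {c e : ℕ → ℕ} (hC : Cert k A B1 B2 D c e) {γ θ θ' : ℝ}
    (hN : Num A B1 B2 D γ θ θ') : ∃ C K : ℝ, 0 < C ∧ 0 < K ∧ ∀ d ρ : ℤ, ¬ (3 : ℤ) ∣ d →
      d % 2 = 1 → Node d ρ → 0 < ρ → (∀ v : ℤ, 0 < v → Node d v → (∃ j, (Gd d)^[j] v = ρ) →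
        d < 2 * v ∧ -(d : ℝ) ≤ 2 * (θ' - 1) * v) → ∀ X : ℤ, ρ ≤ X →
        C * ((X : ℝ) / ρ) ^ γ ≤ (((Ioc X (4 * X)).filter (fun u => Node d u ∧
          ∃ j : ℕ, (j : ℝ) ≤ K * Real.log (2 * X) ∧ 0 < j ∧ Path d ρ X (Gd d u) (j - 1))).card : ℝ) := by
  have hθ : 0 < θ := by linarith [hN.θ1]
  have hη : 0 < 1 - θ⁻¹ := by
    have : θ⁻¹ < 1 := inv_lt_one_of_one_lt₀ hN.θ1
    linarith
  set M : ℕ := ∑ i ∈ range (3 ^ (k + 1)), c i with hM
  have hcM : ∀ i < 3 ^ (k + 1), c i ≤ M := fun i hi =>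
    single_le_sum (f := c) (fun _ _ => Nat.zero_le _) (mem_range.2 hi)
  have hM1 : 1 ≤ M := (hC.pos 0 (by positivity)).trans_le (hcM 0 (by positivity))
  have hM1r : (1 : ℝ) ≤ M := by exact_mod_cast hM1
  set C : ℝ := (1 - θ⁻¹) / (2 * M) with hCdef
  have hC0 : 0 < C := by positivity
  have hC1 : C < 2 := by
    rw [hCdef, div_lt_iff₀ (by positivity)]
    have : 0 < θ⁻¹ := inv_pos.2 hθ
    nlinarith
  have hlogθ : 0 < Real.log θ := Real.log_pos hN.θ1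
  have hlog2 : 0 < Real.log 2 := Real.log_pos (by norm_num)
  set κ : ℝ := Real.log (2 / C) / Real.log 2 with hκ
  have hκ0 : 0 < κ := div_pos (Real.log_pos (by rw [lt_div_iff₀ hC0]; linarith)) hlog2
  refine ⟨C, (1 + κ) / Real.log θ, hC0, by positivity, ?_⟩
  intro d ρ hd hd2 hρn hρ0 hgood X hX
  have hX0 : 0 < X := by omega
  have hXr : (0 : ℝ) < X := by exact_mod_cast hX0
  have hX1 : (1 : ℝ) ≤ X := by exact_mod_cast hX0
  have hρr : (0 : ℝ) < ρ := by exact_mod_cast hρ0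
  set K : ℝ := (1 + κ) / Real.log θ with hK
  set S : Finset ℤ := (Ioc 0 X).filter (fun u => ∃ j, Path d ρ X u j) with hS
  set R : Finset ℤ := (Ioc 0 (4 * X)).filter (fun u => Node d u ∧ (u = ρ ∨ Gd d u ∈ S)) with hR
  have hSN : ∀ u ∈ S, Node d u := fun u hu => by
    obtain ⟨j, hj⟩ := (mem_filter.1 hu).2
    exact (hj.2 0 (by omega)).1
  have hSR : S ⊆ R := by
    intro u hu
    have hn := hSN u hu
    rw [hS, mem_filter, mem_Ioc] at hu
    rw [hR, mem_filter, mem_Ioc]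
    refine ⟨⟨hu.1.1, by omega⟩, hn, ?_⟩
    obtain ⟨j, hj⟩ := hu.2
    rcases j with _ | j
    · exact Or.inl hj.1
    · right
      have h1 := hj.2 1 (by omega)
      rw [Function.iterate_one] at h1
      rw [hS, mem_filter, mem_Ioc]
      exact ⟨⟨h1.2.1, h1.2.2⟩, j, hj.tail⟩
  have hρS : ρ ∈ S := by
    rw [hS, mem_filter, mem_Ioc]
    refine ⟨⟨hρ0, hX⟩, 0, rfl, ?_⟩
    intro i hi
    obtain rfl : i = 0 := by omega
    exact ⟨hρn, hρ0, hX⟩
  have hhit : ∀ u ∈ R, ∃ j, (Gd d)^[j] u = ρ := by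
    intro u hu
    rw [hR, mem_filter] at hu
    rcases hu.2.2 with h1 | h1
    · exact ⟨0, h1⟩
    · obtain ⟨j, hj⟩ := (mem_filter.1 h1).2
      exact ⟨j + 1, by rw [Function.iterate_succ_apply]; exact hj.1⟩
  have key := tree_ineq (Gd d) ρ R S hSR (wt k c γ d) θ hN.θ1 (wt_nonneg k c γ d)
    hhit hρS (by
      intro v hv
      have hv' := hv
      have hvn := hSN v hv
      rw [hS, mem_filter, mem_Ioc] at hv
      obtain ⟨⟨hv0, hvX⟩, j, hj⟩ := hv
      obtain ⟨h1, h2⟩ := hgood v hv0 hvn ⟨j, hj.1⟩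
      obtain ⟨U, hU, hle⟩ := sub_harmonic hC hN d v hd hd2 hvn hv0 h1 h2
      refine hle.trans (sum_le_sum_of_subset_of_nonneg ?_ fun u _ _ => wt_nonneg k c γ d u)
      intro u hu
      obtain ⟨a1, a2, a3, a4⟩ := hU u hu
      rw [mem_filter, hR, mem_filter, mem_Ioc]
      exact ⟨⟨⟨a2, by omega⟩, a1, Or.inr (by rw [a4]; exact hv')⟩, a4⟩)
  -- bounds for the weights
  have hwρ : (ρ : ℝ) ^ (-γ) ≤ wt k c γ d ρ := by
    rw [wt, abs_of_pos hρr]
    have h1 : (1 : ℝ) ≤ c (ix k d ρ) := by exact_mod_cast hC.pos _ (ix_lt k d ρ)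
    have h2 : (0 : ℝ) < (ρ : ℝ) ^ (-γ) := Real.rpow_pos_of_pos hρr _
    nlinarith
  have hRS : ∀ u ∈ R \ S, X < u ∧ u ≤ 4 * X ∧ Node d u ∧ u ≠ ρ ∧ ∃ j, Path d ρ X (Gd d u) j := by
    intro u hu
    rw [mem_sdiff, hR, mem_filter, mem_Ioc] at hu
    obtain ⟨⟨⟨h1, h2⟩, h3, h4⟩, h5⟩ := hu
    have hne : u ≠ ρ := by rintro rfl; exact h5 hρS
    have h6 : Gd d u ∈ S := h4.resolve_left hne
    obtain ⟨j, hj⟩ := (mem_filter.1 h6).2
    refine ⟨?_, h2, h3, hne, j, hj⟩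
    by_contra h
    apply h5
    rw [hS, mem_filter, mem_Ioc]
    exact ⟨⟨h1, by omega⟩, j + 1, hj.cons h3 h1 (by omega) rfl⟩
  have hwX : ∀ u ∈ R \ S, wt k c γ d u ≤ M * (X : ℝ) ^ (-γ) := by
    intro u hu
    have hux : X < u := (hRS u hu).1
    have hur : (0 : ℝ) < u := by exact_mod_cast hX0.trans hux
    rw [wt, abs_of_pos hur]
    have h1 : (c (ix k d u) : ℝ) ≤ M := by exact_mod_cast hcM _ (ix_lt k d u)
    have h2 : (u : ℝ) ^ (-γ) ≤ (X : ℝ) ^ (-γ) :=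
      Real.rpow_le_rpow_of_nonpos hXr (by exact_mod_cast hux.le) (by linarith [hN.γ0])
    exact mul_le_mul h1 h2 (Real.rpow_pos_of_pos hur _).le (by positivity)
  set J : ℕ := ⌊K * Real.log (2 * X)⌋₊ with hJ
  have hlogX : 0 ≤ Real.log (2 * X) := Real.log_nonneg (by linarith)
  have hK0 : 0 < K := by positivity
  have hJle : (J : ℝ) ≤ K * Real.log (2 * X) := Nat.floor_le (by positivity)
  have hJlt : K * Real.log (2 * X) < J + 1 := Nat.lt_floor_add_one _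
  set near := (R \ S).filter (fun u => sInf {j | (Gd d)^[j] u = ρ} ≤ J) with hnear
  set far := (R \ S).filter (fun u => ¬ sInf {j | (Gd d)^[j] u = ρ} ≤ J) with hfar
  have hXp : (0 : ℝ) < (X : ℝ) ^ (-γ) := Real.rpow_pos_of_pos hXr _
  have hi0 : 0 < θ⁻¹ := inv_pos.2 hθ
  have hi1 : θ⁻¹ ≤ 1 := inv_le_one_of_one_le₀ hN.θ1.le
  have hsum : ∑ u ∈ R \ S, wt k c γ d u * (θ⁻¹) ^ sInf {j | (Gd d)^[j] u = ρ} ≤
      M * (X : ℝ) ^ (-γ) * near.card + M * (X : ℝ) ^ (-γ) * (θ⁻¹) ^ (J + 1) * (4 * X) := by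
    rw [← sum_filter_add_sum_filter_not (R \ S) (fun u => sInf {j | (Gd d)^[j] u = ρ} ≤ J)]
    refine add_le_add ?_ ?_
    · rw [mul_comm, ← nsmul_eq_mul]
      refine sum_le_card_nsmul _ _ _ fun u hu => ?_
      refine (mul_le_of_le_one_right (wt_nonneg _ _ _ _ _) (pow_le_one₀ hi0.le hi1)).trans ?_
      exact hwX u (mem_filter.1 hu).1
    · have h1 : (far.card : ℝ) ≤ 4 * X := by
        have h2 : far.card ≤ (Ioc 0 (4 * X)).card := card_le_card (by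
          intro u hu
          have h5 := hRS u (mem_filter.1 hu).1
          rw [mem_Ioc]
          exact ⟨by omega, h5.2.1⟩)
        rw [Int.card_Ioc] at h2
        have h3 : ((4 * X - 0).toNat : ℤ) = 4 * X := by omega
        have h4 : (far.card : ℤ) ≤ 4 * X := by rw [← h3]; exact_mod_cast h2
        exact_mod_cast h4
      calc _ ≤ far.card • (M * (X : ℝ) ^ (-γ) * (θ⁻¹) ^ (J + 1)) := by
            refine sum_le_card_nsmul _ _ _ fun u hu => ?_
            refine mul_le_mul (hwX u (mem_filter.1 hu).1) ?_ (by positivity) (by positivity)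
            exact pow_le_pow_of_le_one hi0.le hi1 (by have := (mem_filter.1 hu).2; omega)
        _ = M * (X : ℝ) ^ (-γ) * (θ⁻¹) ^ (J + 1) * far.card := by rw [nsmul_eq_mul]; ring
        _ ≤ _ := mul_le_mul_of_nonneg_left h1 (by positivity)
  -- the far part is negligible
  have hfarb : (θ⁻¹) ^ (J + 1) * (4 * X) ≤ C := by
    have h1 : (θ⁻¹) ^ (J + 1) ≤ (2 * X : ℝ) ^ (-(1 + κ)) := by
      have h2 : (θ⁻¹) ^ (J + 1) = Real.exp (-((J + 1 : ℕ) : ℝ) * Real.log θ) := by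
        rw [neg_mul, Real.exp_neg, ← Real.log_pow, Real.exp_log (by positivity), inv_pow]
      rw [h2, Real.rpow_def_of_pos (by positivity)]
      apply Real.exp_le_exp.2
      have h3 : K * Real.log θ = 1 + κ := by rw [hK]; field_simp
      push_cast
      have h4 : (K * Real.log (2 * X)) * Real.log θ ≤ (J + 1) * Real.log θ :=
        mul_le_mul_of_nonneg_right hJlt.le hlogθ.le
      nlinarith
    have h5 : (2 * X : ℝ) ^ (-(1 + κ)) * (4 * X) = 2 * (2 * X : ℝ) ^ (-κ) := by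
      rw [neg_add, Real.rpow_add (by positivity), Real.rpow_neg_one]
      field_simp
      ring
    have h6 : (2 * X : ℝ) ^ (-κ) ≤ (2 : ℝ) ^ (-κ) :=
      Real.rpow_le_rpow_of_nonpos (by norm_num) (by linarith) (by linarith)
    have h7 : (2 : ℝ) ^ (-κ) = C / 2 := by
      rw [Real.rpow_def_of_pos (by norm_num), hκ]
      rw [show Real.log 2 * -(Real.log (2 / C) / Real.log 2) = -Real.log (2 / C) by
        field_simp, Real.exp_neg, Real.exp_log (by positivity), inv_div]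
    calc _ ≤ (2 * X : ℝ) ^ (-(1 + κ)) * (4 * X) := mul_le_mul_of_nonneg_right h1 (by positivity)
      _ = 2 * (2 * X : ℝ) ^ (-κ) := h5
      _ ≤ 2 * (C / 2) := by rw [← h7]; linarith
      _ = C := by ring
  have hratio : (ρ : ℝ) ^ (-γ) = (X : ℝ) ^ (-γ) * ((X : ℝ) / ρ) ^ γ := by
    rw [Real.div_rpow hXr.le hρr.le, Real.rpow_neg hXr.le, Real.rpow_neg hρr.le]
    have : (X : ℝ) ^ γ ≠ 0 := (Real.rpow_pos_of_pos hXr _).ne'
    field_simp
  have hr1 : 1 ≤ ((X : ℝ) / ρ) ^ γ :=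
    Real.one_le_rpow (by rw [le_div_iff₀ hρr, one_mul]; exact_mod_cast hX) hN.γ0.le
  have hmain : 2 * C * ((X : ℝ) / ρ) ^ γ ≤ near.card + C := by
    have h1 : (X : ℝ) ^ (-γ) * ((X : ℝ) / ρ) ^ γ * (1 - θ⁻¹) ≤
        M * (X : ℝ) ^ (-γ) * near.card + M * (X : ℝ) ^ (-γ) * C := by
      calc _ = (ρ : ℝ) ^ (-γ) * (1 - θ⁻¹) := by rw [hratio]
        _ ≤ wt k c γ d ρ * (1 - θ⁻¹) := mul_le_mul_of_nonneg_right hwρ hη.le
        _ ≤ M * (X : ℝ) ^ (-γ) * near.card + M * (X : ℝ) ^ (-γ) * (θ⁻¹) ^ (J + 1) * (4 * X) :=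
            key.trans hsum
        _ = M * (X : ℝ) ^ (-γ) * near.card + M * (X : ℝ) ^ (-γ) * ((θ⁻¹) ^ (J + 1) * (4 * X)) := by
            ring
        _ ≤ _ := add_le_add le_rfl (mul_le_mul_of_nonneg_left hfarb (by positivity))
    have h2 : (X : ℝ) ^ (-γ) * (((X : ℝ) / ρ) ^ γ * (1 - θ⁻¹)) ≤
        (X : ℝ) ^ (-γ) * (M * (near.card + C)) := by
      calc _ = (X : ℝ) ^ (-γ) * ((X : ℝ) / ρ) ^ γ * (1 - θ⁻¹) := by ring
        _ ≤ _ := h1
        _ = _ := by ring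
    have h3 := le_of_mul_le_mul_left h2 hXp
    have h4 : 2 * C * ((X : ℝ) / ρ) ^ γ = ((X : ℝ) / ρ) ^ γ * (1 - θ⁻¹) / M := by
      rw [hCdef]; field_simp
    rw [h4, div_le_iff₀ (by positivity)]
    linarith
  have hcount : C * ((X : ℝ) / ρ) ^ γ ≤ near.card := by
    nlinarith
  refine hcount.trans ?_
  have hsub : near ⊆ (Ioc X (4 * X)).filter (fun u => Node d u ∧
      ∃ j : ℕ, (j : ℝ) ≤ K * Real.log (2 * X) ∧ 0 < j ∧ Path d ρ X (Gd d u) (j - 1)) := by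
    intro u hu
    rw [hnear, mem_filter] at hu
    obtain ⟨h1, h2⟩ := hu
    obtain ⟨h3, h4, h5, h6, j, hj⟩ := hRS u h1
    rw [mem_filter, mem_Ioc]
    have hmem : (Gd d)^[sInf {j | (Gd d)^[j] u = ρ}] u = ρ :=
      Nat.sInf_mem (s := {j | (Gd d)^[j] u = ρ})
        ⟨j + 1, by show (Gd d)^[j + 1] u = ρ; rw [Function.iterate_succ_apply]; exact hj.1⟩
    have hle : sInf {j | (Gd d)^[j] u = ρ} ≤ j + 1 :=
      Nat.sInf_le (by show (Gd d)^[j + 1] u = ρ; rw [Function.iterate_succ_apply]; exact hj.1)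
    have hpos : sInf {j | (Gd d)^[j] u = ρ} ≠ 0 := by
      intro h0
      rw [h0] at hmem
      exact h6 hmem
    obtain ⟨t, ht⟩ := Nat.exists_eq_succ_of_ne_zero hpos
    refine ⟨⟨h3, h4⟩, h5, _, le_trans (by exact_mod_cast h2) hJle, Nat.pos_of_ne_zero hpos, ?_⟩
    rw [ht] at hmem hle ⊢
    rw [Nat.succ_eq_add_one, Nat.add_sub_cancel]
    refine ⟨by rw [← Function.iterate_succ_apply]; exact hmem, fun i hi => hj.2 i (by omega)⟩
  exact_mod_cast card_le_card hsub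

end Q158.KL
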