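import Pool.Agent.Q158.KL.Cert

/-!
# The decoded table is bounded
-/

namespace Q158.KL

theorem mkE_lt (P : Par) (raw : ℕ → ℕ) (l : ℕ) : mkE P raw l < 2 ^ (P.w * 3 ^ P.h) := by
  unfold mkE
  rw [Nat.and_two_pow_sub_one_eq_mod]
  exact Nat.mod_lt _ (by positivity)

end Q158.KL
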