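import Mathlib.Data.Nat.Notation

/-!
# Packed computation: definitions

Everything in this file is evaluated by the kernel on large numbers.
-/

namespace Q158.KL

/-- `N` digits of width `W`, all equal to one. -/
def ones (W N : ℕ) : ℕ := (2 ^ (W * N) - 1) / (2 ^ W - 1)

/-- Merge the blocks of width `B` at stride `P` in pairs. -/
def merge (B P r y : ℕ) : ℕ :=
  (y &&& ((r <<< B) - r)) + ((y - (y &&& ((r <<< B) - r))) >>> (P - B))

/-- Compress digits of width `w` at stride `w * p` (there are `2 ^ L` of them in each of the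
blocks marked by `r`). -/
def cp (w p : ℕ) : ℕ → ℕ → ℕ → ℕ
  | 0, _, x => x
  | L + 1, r, x => merge (w * 2 ^ L) (w * p * 2 ^ L) r (cp w p L (r + r <<< (w * p * 2 ^ L)) x)

/-- `p` periods of a vector of total width `W`. -/
def per (W : ℕ) : ℕ → ℕ → ℕ
  | 0, _ => 0
  | p + 1, x => x + (per W p x) <<< W

/-- The digits at the positions `p h + q`, cut to `b` bits, at stride `w * p`. -/
def gs (w p H q b x : ℕ) : ℕ :=
  ((per (w * H) p x) >>> (q * w)) &&& ((2 ^ b - 1) * ones (w * p) H)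

/-- Digitwise division by `2 ^ d`, cut to `b` bits. -/
def fl (W H b d x : ℕ) : ℕ := (x >>> d) &&& ((2 ^ b - 1) * ones W H)

/-- The digitwise comparison `P ≤ Q` for digits of `W - 1` bits. -/
def leq (W H P Q : ℕ) : Bool :=
  ((Q + 2 ^ (W - 1) * ones W H) - P) &&& (2 ^ (W - 1) * ones W H) == 2 ^ (W - 1) * ones W H

/-- The parameters of a certificate: `3 ^ (s + 1)` chunks of `3 ^ h` entries of `w` bits (values
below `2 ^ (w - 1)`), and the integer weights. -/
structure Par where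
  s : ℕ
  h : ℕ
  w : ℕ
  L : ℕ
  dd : ℕ
  A : ℕ
  B1 : ℕ
  B2 : ℕ
  inv4 : ℕ

/-- One step of the packed iteration: from (a lower bound for) the chunk `4 l + 2` to the chunk
`l`.  The chunks of `cc` are indexed modulo `3 ^ (s + 1)`, those of `e` modulo `3 ^ s`. -/
def step (P : Par) (E : ℕ → ℕ) (l X : ℕ) : ℕ :=
  bif l % 3 == 0 then
    cp P.w 4 P.L 1 (fl (P.w * 4) (3 ^ P.h) (P.w - 1) P.dd
      (P.A * gs P.w 4 (3 ^ P.h) ((4 * l + 2) / 3 ^ (P.s + 1)) (P.w - 1) X +
        P.B2 * gs P.w 4 (3 ^ P.h) ((4 * (l / 3)) / 3 ^ P.s) (P.w - 1)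
          (E ((4 * (l / 3)) % 3 ^ P.s))))
  else bif l % 3 == 1 then
    cp P.w 4 P.L 1 (fl (P.w * 4) (3 ^ P.h) (P.w - 1) P.dd
      (P.A * gs P.w 4 (3 ^ P.h) ((4 * l + 2) / 3 ^ (P.s + 1)) (P.w - 1) X))
  else
    cp P.w 2 P.L 1 (fl (P.w * 2) (3 ^ P.h) (P.w - 1) P.dd
      (P.A * cp (P.w * 2) 2 P.L 1
          (gs P.w 4 (3 ^ P.h) ((4 * l + 2) / 3 ^ (P.s + 1)) (P.w - 1) X) +
        P.B1 * gs P.w 2 (3 ^ P.h) ((2 * (l / 3) + 1) / 3 ^ P.s) (P.w - 1)
          (E ((2 * (l / 3) + 1) % 3 ^ P.s))))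

/-- The chunk `l` is checked: the table is positive and bounded by the packed values. -/
def chk (P : Par) (E : ℕ → ℕ) (l Y : ℕ) : Bool :=
  leq P.w (3 ^ P.h) (cp P.w 3 P.L 1
      (gs P.w 3 (3 ^ P.h) (l / 3 ^ P.s) (P.w - 1) (E (l % 3 ^ P.s)))) Y &&
    leq P.w (3 ^ P.h) (ones P.w (3 ^ P.h)) (cp P.w 3 P.L 1
      (gs P.w 3 (3 ^ P.h) (l / 3 ^ P.s) (P.w - 1) (E (l % 3 ^ P.s))))

/-- The previous chunk in the cycle. -/
def prv (P : Par) (l : ℕ) : ℕ := ((l + 3 ^ (P.s + 1) - 2) * P.inv4) % 3 ^ (P.s + 1)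

/-- Run along the cycle: `c` steps with check. -/
def runC (P : Par) (E : ℕ → ℕ) : ℕ → ℕ → ℕ → Bool
  | 0, _, _ => true
  | c + 1, l, X =>
    (4 * prv P l + 2) % 3 ^ (P.s + 1) == l && (chk P E (prv P l) (step P E (prv P l) X) &&
      runC P E c (prv P l) (step P E (prv P l) X))

/-- Run along the cycle: `k` steps without, then `c` steps with check. -/
def run (P : Par) (E : ℕ → ℕ) (c : ℕ) : ℕ → ℕ → ℕ → Bool
  | 0, l, X => runC P E c l X
  | k + 1, l, X =>
    (4 * prv P l + 2) % 3 ^ (P.s + 1) == l && run P E c k (prv P l) (step P E (prv P l) X)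

/-- The set (as a bit mask) of the chunks visited by `c` steps. -/
def vis (P : Par) : ℕ → ℕ → ℕ → ℕ
  | 0, _, acc => acc
  | c + 1, l, acc => vis P c (prv P l) (acc ||| 1 <<< prv P l)

/-! ### Decoding of the compressed tables

The entries of a chunk are stored with 13 bits each: a mantissa of 10 bits and an exponent of 3
bits.  Nothing has to be proved about the decoder, because the decoded table is what the
certificate is checked for. -/

/-- Spread digits of width `a` to stride `w`. -/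
def st (a w : ℕ) : ℕ → ℕ → ℕ → ℕ
  | 0, _, x => x
  | l + 1, r, x => st a w l (r + r <<< (w * 2 ^ l))
      ((x &&& ((r <<< (a * 2 ^ l)) - r)) +
        ((x - (x &&& ((r <<< (a * 2 ^ l)) - r))) <<< ((w - a) * 2 ^ l)))

/-- Multiply the digits of `v` marked by the bits `k` of the digits of `y` by `c + 1`. -/
def scale (w H k c y v : ℕ) : ℕ :=
  v + ((c * v) &&& ((((y >>> k) &&& ones w H) <<< w) - ((y >>> k) &&& ones w H)))

/-- The spread digits `y` (exponent above mantissa) to values. -/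
def dec1 (w H y : ℕ) : ℕ :=
  scale w H 12 15 y (scale w H 11 3 y (scale w H 10 1 y (y &&& (1023 * ones w H))))

/-- Decode a chunk. -/
def dec (w h L x : ℕ) : ℕ := dec1 w (3 ^ h) (st 13 w L 1 x)

/-- The chunks of the table: those with `l ≡ 1` modulo `3` are derived from others. -/
def mkE (P : Par) (raw : ℕ → ℕ) (l : ℕ) : ℕ :=
  (bif l % 3 == 1 then
    cp P.w 4 P.L 1 (fl (P.w * 4) (3 ^ P.h) (P.w - 1) P.dd
      (P.A * gs P.w 4 (3 ^ P.h) ((4 * l + 2) / 3 ^ P.s) (P.w - 1)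
        (dec P.w P.h P.L (raw ((4 * l + 2) % 3 ^ P.s)))))
  else dec P.w P.h P.L (raw l)) &&& (2 ^ (P.w * 3 ^ P.h) - 1)

end Q158.KL
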