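import Pool.Agent.Q158.KL.Main

/-!
# Final forms of the lower bounds
-/

namespace Q158.KL

open Finset

/-- The predecessors `n` of `a` with `|n| ≤ x`, on the side of `a`, with the property `P n`, which
reach `a` within `K log (2 x)` steps through integers of absolute value at most `B n`. -/
def preds (d a : ℤ) (K : ℝ) (x : ℕ) (P : ℤ → Prop) (B : ℤ → ℤ) : Set ℤ :=
  {n | |n| ≤ (x : ℤ) ∧ 0 < n * a ∧ P n ∧ ∃ j : ℕ, (j : ℝ) ≤ K * Real.log (2 * x) ∧
    (Td d)^[j] n = a ∧ ∀ i ≤ j, |(Td d)^[i] n| ≤ B n}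

theorem preds_finite (d a : ℤ) (K : ℝ) (x : ℕ) (P : ℤ → Prop) (B : ℤ → ℤ) :
    (preds d a K x P B).Finite :=
  (Set.finite_Icc (-(x : ℤ)) x).subset fun n hn => by
    rw [Set.mem_Icc]; exact abs_le.1 hn.1

theorem preds_mono (d a : ℤ) {K K' : ℝ} (hK : K ≤ K') (x : ℕ) (hx : 1 ≤ x) (P : ℤ → Prop)
    (B : ℤ → ℤ) : preds d a K x P B ⊆ preds d a K' x P B := by
  rintro n ⟨h2, h3, h4, j, hj, hjn⟩
  refine ⟨h2, h3, h4, j, hj.trans ?_, hjn⟩
  have hl : 0 ≤ Real.log (2 * x) := by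
    apply Real.log_nonneg
    have : (1 : ℝ) ≤ x := by exact_mod_cast hx
    linarith
  exact mul_le_mul_of_nonneg_right hK hl

theorem le_ncard_preds (d a : ℤ) (ha : 0 < a) (K : ℝ) (x : ℕ) (P : ℤ → Prop) (B : ℤ → ℤ) (y : ℝ)
    (F : Finset ℤ) (hF : ∀ u ∈ F, 0 < u ∧ u ≤ x ∧ P u ∧
      ∃ j : ℕ, (j : ℝ) ≤ K * Real.log (2 * x) ∧ Reach d a (B u) u j)
    (h : y ≤ (F.card : ℝ)) :
    y ≤ (((preds d a K x P B).ncard : ℕ) : ℝ) := by
  refine h.trans ?_
  have h1 : (F : Set ℤ) ⊆ preds d a K x P B := by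
    intro u hu
    obtain ⟨h1, h2, h3, j, hj, hja, hjp⟩ := hF u hu
    refine ⟨by rw [abs_of_pos h1]; exact h2, mul_pos h1 ha, h3, j, hj, hja, fun i hi => ?_⟩
    rw [abs_of_pos (hjp i hi).1]
    exact (hjp i hi).2
  have h2 := Set.ncard_le_ncard h1 (preds_finite d a K x P B)
  rw [Set.ncard_coe_finset] at h2
  exact_mod_cast h2

/-- A small range of `x` costs only a constant. -/
theorem small_range (d a : ℤ) (ha : 0 < a) (K : ℝ) (hK : 0 ≤ K) (x : ℕ) (hx : a ≤ x) (P : ℤ → Prop)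
    (hP : P a) (B : ℤ → ℤ) (hB : a ≤ B a) (y : ℝ) (hy : y ≤ 1) :
    y ≤ (((preds d a K x P B).ncard : ℕ) : ℝ) := by
  refine hy.trans ?_
  have h1 : ({a} : Set ℤ) ⊆ preds d a K x P B := by
    intro n hn
    rw [Set.mem_singleton_iff] at hn
    subst hn
    refine ⟨by rw [abs_of_pos ha]; exact hx, mul_pos ha ha, hP, 0, ?_, rfl, ?_⟩
    · have : (1 : ℝ) ≤ x := by
        have : (1 : ℤ) ≤ x := by omega
        exact_mod_cast this
      have := Real.log_nonneg (by linarith : (1 : ℝ) ≤ 2 * x)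
      push_cast
      positivity
    · intro i hi
      obtain rfl : i = 0 := by omega
      rw [Function.iterate_zero_apply, abs_of_pos ha]
      exact hB
  have h2 := Set.ncard_le_ncard h1 (preds_finite d a K x P B)
  rw [Set.ncard_singleton] at h2
  exact_mod_cast h2

/-- From a root `2 ^ r * a` to all `x ≥ a`. -/
theorem from_root {γ C K : ℝ} (hγ0 : 0 < γ) (hγ1 : γ ≤ 1) (hC : 0 < C) (hK : 0 < K) (d a : ℤ)
    (ha : 0 < a) (r : ℕ) (P : ℤ → Prop) (hP : P a) (x : ℕ) (hx : a ≤ x) (B : ℤ → ℤ) (hB : a ≤ B a)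
    (h : 4 * (2 ^ r * a) ≤ (x : ℤ) → C * ((x : ℝ) / (2 ^ r * a)) ^ γ ≤
      ((preds d a (K + r / Real.log 2) x P B).ncard : ℝ)) :
    min C 1 / (4 * 2 ^ r) * ((x : ℝ) / a) ^ γ ≤
      ((preds d a (K + r / Real.log 2) x P B).ncard : ℝ) := by
  have har : (0 : ℝ) < a := by exact_mod_cast ha
  have hxr : (0 : ℝ) < x := by
    have : (0 : ℤ) < x := by omega
    exact_mod_cast this
  have hlog2 : 0 < Real.log 2 := Real.log_pos (by norm_num)
  have h2r : (1 : ℝ) ≤ 2 ^ r := one_le_pow₀ (by norm_num)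
  have hm : 0 < min C 1 := lt_min hC one_pos
  by_cases hx4 : 4 * (2 ^ r * a) ≤ (x : ℤ)
  · refine le_trans ?_ (h hx4)
    have h2 : ((x : ℝ) / a) ^ γ ≤ 2 ^ r * ((x : ℝ) / (2 ^ r * a)) ^ γ := by
      have h3 : (x : ℝ) / a = 2 ^ r * ((x : ℝ) / (2 ^ r * a)) := by field_simp
      have h4 : ((2 : ℝ) ^ r) ^ γ ≤ 2 ^ r := by
        calc ((2 : ℝ) ^ r) ^ γ ≤ ((2 : ℝ) ^ r) ^ (1 : ℝ) :=
              Real.rpow_le_rpow_of_exponent_le h2r hγ1
          _ = _ := Real.rpow_one _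
      rw [h3, Real.mul_rpow (by positivity) (by positivity)]
      exact mul_le_mul_of_nonneg_right h4 (by positivity)
    have h5 : 0 ≤ ((x : ℝ) / (2 ^ r * a)) ^ γ := by positivity
    push_cast
    calc min C 1 / (4 * 2 ^ r) * ((x : ℝ) / a) ^ γ
        ≤ min C 1 / (4 * 2 ^ r) * (2 ^ r * ((x : ℝ) / (2 ^ r * a)) ^ γ) :=
          mul_le_mul_of_nonneg_left h2 (by positivity)
      _ = min C 1 / 4 * ((x : ℝ) / (2 ^ r * a)) ^ γ := by field_simp
      _ ≤ C * ((x : ℝ) / (2 ^ r * a)) ^ γ := by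
          apply mul_le_mul_of_nonneg_right _ h5
          have := min_le_left C 1
          linarith
  · refine small_range d a ha _ (by positivity) x hx P hP B hB _ ?_
    push Not at hx4
    have h1 : (x : ℝ) / a ≤ 4 * 2 ^ r := by
      rw [div_le_iff₀ har]
      have : (x : ℤ) ≤ 4 * 2 ^ r * a := by
        have e : (4 : ℤ) * 2 ^ r * a = 4 * (2 ^ r * a) := by ring
        omega
      exact_mod_cast this
    have h2 : ((x : ℝ) / a) ^ γ ≤ 4 * 2 ^ r := by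
      calc ((x : ℝ) / a) ^ γ ≤ (4 * 2 ^ r : ℝ) ^ γ := Real.rpow_le_rpow (by positivity) h1 hγ0.le
        _ ≤ (4 * 2 ^ r : ℝ) ^ (1 : ℝ) :=
            Real.rpow_le_rpow_of_exponent_le (by linarith) hγ1
        _ = _ := Real.rpow_one _
    calc min C 1 / (4 * 2 ^ r) * ((x : ℝ) / a) ^ γ
        ≤ min C 1 / (4 * 2 ^ r) * (4 * 2 ^ r) := mul_le_mul_of_nonneg_left h2 (by positivity)
      _ = min C 1 := by field_simp
      _ ≤ 1 := min_le_right _ _

theorem log_absorb (K : ℝ) (r : ℕ) (x : ℝ) (hx : 1 ≤ x) :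
    K * Real.log (2 * x) + r ≤ (K + r / Real.log 2) * Real.log (2 * x) := by
  have hlog2 : 0 < Real.log 2 := Real.log_pos (by norm_num)
  have h1 : Real.log 2 ≤ Real.log (2 * x) := Real.log_le_log (by norm_num) (by linarith)
  have h2 : (r : ℝ) ≤ r / Real.log 2 * Real.log (2 * x) := by
    rw [div_mul_eq_mul_div, le_div_iff₀ hlog2]
    exact mul_le_mul_of_nonneg_left h1 (by positivity)
  linarith

open Classical in
/-- Positive roots: from the core theorem. -/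
theorem pos_root {k A B1 B2 D : ℕ} {c e : ℕ → ℕ} (hC : Cert k A B1 B2 D c e) {γ θ θ' : ℝ}
    (hN : Num A B1 B2 D γ θ θ') : ∃ C K : ℝ, 0 < C ∧ 0 < K ∧ ∀ d a : ℤ, ¬ (3 : ℤ) ∣ d →
      d % 2 = 1 → 0 < a → ∀ r : ℕ, Node d (2 ^ r * a) →
      (∀ v : ℤ, 0 < v → Node d v → (∃ j, (Gd d)^[j] v = 2 ^ r * a) →
        d < 2 * v ∧ -(d : ℝ) ≤ 2 * (θ' - 1) * v) → ∀ x : ℕ, a ≤ x →
        min C 1 / (4 * 2 ^ r) * ((x : ℝ) / a) ^ γ ≤
          ((preds d a (K + r / Real.log 2) x (fun _ => True) (fun n => |n|)).ncard : ℝ) ∧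
        (a % 2 = 1 → min C 1 / (4 * 2 ^ r) * ((x : ℝ) / a) ^ γ ≤
          ((preds d a (K + r / Real.log 2) x (fun n => n % 2 = 1) (fun _ => x)).ncard : ℝ)) := by
  obtain ⟨C, K, hC0, hK0, hmain⟩ := core hC hN
  refine ⟨C, K, hC0, hK0, ?_⟩
  intro d a hd hd2 ha r hn hgood x hx
  have hx0 : (0 : ℤ) < x := by omega
  have hx1 : (1 : ℝ) ≤ x := by exact_mod_cast hx0
  have hab := log_absorb K r x hx1
  constructor
  · refine from_root hN.γ0 hN.γ1 hC0 hK0 d a ha r (fun _ => True) trivial x hx (fun n => |n|)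
      (le_abs_self a) ?_
    intro hy
    have h1 := (hmain d a hd hd2 ha r hn hgood x hy).1
    refine le_ncard_preds d a ha _ x (fun _ => True) (fun n => |n|) _ _ ?_ h1
    intro u hu
    rw [mem_filter, mem_Ioc] at hu
    obtain ⟨h2, j, hj, hju⟩ := hu
    push_cast at hj
    refine ⟨h2.1, h2.2, trivial, j, hj.trans hab, ?_⟩
    show Reach d a |u| u j
    rw [abs_of_pos h2.1]
    exact hju
  · intro ha2
    refine from_root hN.γ0 hN.γ1 hC0 hK0 d a ha r (fun n => n % 2 = 1) ha2 x hx (fun _ => x) hx ?_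
    intro hy
    have h1 := (hmain d a hd hd2 ha r hn hgood x hy).2 ha2
    refine le_ncard_preds d a ha _ x (fun n => n % 2 = 1) (fun _ => x) _ _ ?_ h1
    intro u hu
    rw [mem_filter, mem_Ioc] at hu
    obtain ⟨h2, h3, j, hj, hju⟩ := hu
    push_cast at hj
    exact ⟨h2.1, h2.2, h3, j, hj.trans hab, hju⟩

/-- The uniform theorem for `3x + 1` on the positive integers. -/
theorem uniform {k A B1 B2 D : ℕ} {c e : ℕ → ℕ} (hC : Cert k A B1 B2 D c e) {γ θ θ' : ℝ}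
    (hN : Num A B1 B2 D γ θ θ') : ∃ C K : ℝ, 0 < C ∧ 0 < K ∧ ∀ a : ℤ, 0 < a → ¬ (3 : ℤ) ∣ a →
      ∀ x : ℕ, a ≤ x →
        C * ((x : ℝ) / a) ^ γ ≤ ((preds 1 a K x (fun _ => True) (fun n => |n|)).ncard : ℝ) ∧
        (a % 2 = 1 → C * ((x : ℝ) / a) ^ γ ≤
          ((preds 1 a K x (fun n => n % 2 = 1) (fun _ => x)).ncard : ℝ)) := by
  obtain ⟨C, K, hC0, hK0, h⟩ := pos_root hC hN
  have hlog2 : 0 < Real.log 2 := Real.log_pos (by norm_num)
  refine ⟨min C 1 / 8, K + 1 / Real.log 2, by positivity, by positivity, ?_⟩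
  intro a ha ha3 x hx
  have har : (0 : ℝ) < a := by exact_mod_cast ha
  have hgood : ∀ v : ℤ, 0 < v → (1 : ℤ) < 2 * v ∧ -((1 : ℤ) : ℝ) ≤ 2 * (θ' - 1) * v := by
    intro v hv
    refine ⟨by omega, ?_⟩
    have h1 : (0 : ℝ) < v := by exact_mod_cast hv
    have h2 : 0 ≤ θ' - 1 := by linarith [hN.t1]
    have : 0 ≤ 2 * (θ' - 1) * v := by positivity
    push_cast
    linarith
  have hr : ∃ r : ℕ, r ≤ 1 ∧ Node 1 (2 ^ r * a) := by
    rcases node_or 1 a (by norm_num) ha3 with h1 | h1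
    · exact ⟨0, by omega, by simpa using h1⟩
    · exact ⟨1, le_rfl, by simpa using h1⟩
  obtain ⟨r, hr1, hrn⟩ := hr
  have h1 := h 1 a (by norm_num) (by norm_num) ha r hrn (fun v hv _ _ => hgood v hv) x hx
  have hc : min C 1 / 8 ≤ min C 1 / (4 * 2 ^ r) := by
    apply div_le_div_of_nonneg_left (le_min hC0.le one_pos.le) (by positivity)
    have : (2 : ℝ) ^ r ≤ 2 ^ 1 := pow_le_pow_right₀ (by norm_num) hr1
    linarith
  have hKK : K + r / Real.log 2 ≤ K + 1 / Real.log 2 := by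
    have hr' : (r : ℝ) ≤ 1 := by exact_mod_cast hr1
    have : (r : ℝ) / Real.log 2 ≤ 1 / Real.log 2 := div_le_div_of_nonneg_right hr' hlog2.le
    linarith
  have hx1 : 1 ≤ x := by omega
  have hpow : 0 ≤ ((x : ℝ) / a) ^ γ := by positivity
  constructor
  · refine (mul_le_mul_of_nonneg_right hc hpow).trans (h1.1.trans ?_)
    exact_mod_cast Set.ncard_le_ncard (preds_mono _ _ hKK x hx1 _ _) (preds_finite _ _ _ _ _ _)
  · intro ha2
    refine (mul_le_mul_of_nonneg_right hc hpow).trans ((h1.2 ha2).trans ?_)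
    exact_mod_cast Set.ncard_le_ncard (preds_mono _ _ hKK x hx1 _ _) (preds_finite _ _ _ _ _ _)

/-- The theorem for `3x + d` and positive targets. -/
theorem general_pos {k A B1 B2 D : ℕ} {c e : ℕ → ℕ} (hC : Cert k A B1 B2 D c e) {γ θ θ' : ℝ}
    (hN : Num A B1 B2 D γ θ θ') (ht : 1 < θ') (d a : ℤ) (hd : ¬ (3 : ℤ) ∣ d) (hd2 : d % 2 = 1)
    (ha : 0 < a) (ha3 : ¬ (3 : ℤ) ∣ a) : ∃ C K : ℝ, 0 < C ∧ 0 < K ∧ ∀ x : ℕ, a ≤ x →
        C * (x : ℝ) ^ γ ≤ ((preds d a K x (fun _ => True) (fun n => |n|)).ncard : ℝ) ∧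
        (a % 2 = 1 → C * (x : ℝ) ^ γ ≤
          ((preds d a K x (fun n => n % 2 = 1) (fun _ => x)).ncard : ℝ)) := by
  obtain ⟨C, K, hC0, hK0, h⟩ := pos_root hC hN
  have hlog2 : 0 < Real.log 2 := Real.log_pos (by norm_num)
  obtain ⟨V, hV⟩ := exists_nat_gt (|(d : ℝ)| / (2 * (θ' - 1)) + |(d : ℝ)|)
  obtain ⟨r, hrn, hr⟩ := exists_root d a hd ha3 V
  have ht0 : 0 < θ' - 1 := by linarith
  have hgood : ∀ v : ℤ, 0 < v → Node d v → (∃ j, (Gd d)^[j] v = 2 ^ r * a) →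
        d < 2 * v ∧ -(d : ℝ) ≤ 2 * (θ' - 1) * v := by
    rintro v hv _ ⟨j, hj⟩
    have hvV : (V : ℤ) ≤ v := by
      by_contra hlt
      obtain ⟨i, _, hi⟩ := Gd_iter d j v
      exact hr v hv (by omega) i (by rw [← hi, hj])
    have hvr : (V : ℝ) ≤ v := by exact_mod_cast hvV
    have habs : |(d : ℝ)| / (2 * (θ' - 1)) ≤ v := by
      have := abs_nonneg (d : ℝ)
      linarith
    have hd' : |(d : ℝ)| < v := by
      have : 0 ≤ |(d : ℝ)| / (2 * (θ' - 1)) := by positivity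
      linarith
    refine ⟨?_, ?_⟩
    · have h1 : (d : ℝ) < 2 * v := by
        have := le_abs_self (d : ℝ)
        have := abs_nonneg (d : ℝ)
        linarith
      exact_mod_cast h1
    · rw [div_le_iff₀ (by positivity)] at habs
      have := neg_abs_le (d : ℝ)
      linarith
  have har : (0 : ℝ) < a := by exact_mod_cast ha
  refine ⟨min C 1 / (4 * 2 ^ r) * ((a : ℝ) ^ γ)⁻¹, K + r / Real.log 2, by positivity,
    by positivity, ?_⟩
  intro x hx
  have h1 := h d a hd hd2 ha r hrn hgood x hx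
  have h2 : min C 1 / (4 * 2 ^ r) * ((a : ℝ) ^ γ)⁻¹ * (x : ℝ) ^ γ =
      min C 1 / (4 * 2 ^ r) * ((x : ℝ) / a) ^ γ := by
    rw [Real.div_rpow (by positivity) har.le]
    ring
  rw [h2]
  exact h1

/-- Reflection. -/
theorem preds_neg (d a : ℤ) (hd2 : d % 2 = 1) (K : ℝ) (x : ℕ) (P : ℤ → Prop) (B : ℤ → ℤ)
    (hP : ∀ n, P n → P (-n)) (hB : ∀ n, B (-n) = B n) :
    ((preds (-d) (-a) K x P B).ncard : ℝ) ≤ ((preds d a K x P B).ncard : ℝ) := by
  have himg : (fun n : ℤ => -n) '' preds (-d) (-a) K x P B ⊆ preds d a K x P B := by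
    rintro _ ⟨n, ⟨h2, h3, h4, j, hj, hjn, hjp⟩, rfl⟩
    refine ⟨by rw [abs_neg]; exact h2, by linarith, hP n h4, j, hj, ?_, ?_⟩
    · rw [Td_neg_iter d hd2, hjn, neg_neg]
    · intro i hi
      rw [Td_neg_iter d hd2, abs_neg, hB]
      exact hjp i hi
  have hinj : Function.Injective (fun n : ℤ => -n) := neg_injective
  rw [← Set.ncard_image_of_injective _ hinj]
  exact_mod_cast Set.ncard_le_ncard himg (preds_finite _ _ _ _ _ _)

/-- The theorem for `3x + d` and all targets prime to `3`. -/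
theorem general {k A B1 B2 D : ℕ} {c e : ℕ → ℕ} (hC : Cert k A B1 B2 D c e) {γ θ θ' : ℝ}
    (hN : Num A B1 B2 D γ θ θ') (ht : 1 < θ') (d a : ℤ) (hd : ¬ (3 : ℤ) ∣ d) (hd2 : d % 2 = 1)
    (ha3 : ¬ (3 : ℤ) ∣ a) : ∃ C K : ℝ, 0 < C ∧ 0 < K ∧ ∀ x : ℕ, |a| ≤ x →
        C * (x : ℝ) ^ γ ≤ ((preds d a K x (fun _ => True) (fun n => |n|)).ncard : ℝ) ∧
        (a % 2 = 1 → C * (x : ℝ) ^ γ ≤
          ((preds d a K x (fun n => n % 2 = 1) (fun _ => x)).ncard : ℝ)) := by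
  have ha0 : a ≠ 0 := by rintro rfl; exact ha3 (dvd_zero _)
  rcases lt_or_gt_of_ne ha0 with ha | ha
  · -- negative target: reflect
    obtain ⟨C, K, hC0, hK0, h⟩ := general_pos hC hN ht (-d) (-a) (by rwa [dvd_neg]) (by omega)
      (by omega) (by rwa [dvd_neg])
    refine ⟨C, K, hC0, hK0, ?_⟩
    intro x hx
    rw [abs_of_neg ha] at hx
    have h1 := h x hx
    refine ⟨h1.1.trans (preds_neg d a hd2 K x _ _ (fun _ h => h) (fun n => abs_neg n)),
      fun ha2 => (h1.2 (by omega)).trans (preds_neg d a hd2 K x _ _ (fun n h => ?_)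
        (fun _ => rfl))⟩
    show (-n) % 2 = 1
    omega
  · obtain ⟨C, K, hC0, hK0, h⟩ := general_pos hC hN ht d a hd hd2 ha ha3
    refine ⟨C, K, hC0, hK0, fun x hx => h x ?_⟩
    rwa [abs_of_pos ha] at hx

end Q158.KL
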