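import Pool.Agent.Q158.KL.Ops

/-!
# Gathering the digits at the positions `p h + q` of a periodic packed vector
-/

namespace Q158.KL

open Finset

theorem per_spec (w H : ℕ) (f : ℕ → ℕ) (p : ℕ) :
    per (w * H) p (pk w H f) = pk w (p * H) (fun i => f (i % H)) := by
  induction p with
  | zero => simp [per, pk_zero]
  | succ p ih =>
    rw [per, ih, add_mul, one_mul, add_comm (p * H) H, pk_append, Nat.shiftLeft_eq]
    congr 1
    · exact pk_congr _ _ fun i hi => by rw [Nat.mod_eq_of_lt hi]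
    · congr 1
      exact pk_congr _ _ fun i _ => by rw [Nat.add_mod_left]

theorem pk_mod (w p b : ℕ) (hp : 0 < p) (hb : b ≤ w) (g : ℕ → ℕ) :
    pk w p g % 2 ^ b = g 0 % 2 ^ b := by
  obtain ⟨r, rfl⟩ := Nat.exists_eq_succ_of_ne_zero hp.ne'
  obtain ⟨c, hc⟩ := pow_dvd_pow 2 hb
  rw [Nat.succ_eq_add_one, pk_succ', hc, mul_assoc, Nat.add_mul_mod_self_left]

theorem mask_eq (b W H : ℕ) (hW : 0 < W) :
    (2 ^ b - 1) * ones W H = pk W H (fun _ => 2 ^ b - 1) := by
  rw [ones_eq _ _ hW, pk_mul]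
  simp

theorem gs_spec (w p H q b : ℕ) (hw : 0 < w) (hH : 0 < H) (hq : q < p) (hb : b ≤ w) (f : ℕ → ℕ)
    (hf : ∀ i < H, f i < 2 ^ w) :
    gs w p H q b (pk w H f) = pk (w * p) H (fun h => f ((p * h + q) % H) % 2 ^ b) := by
  have hp : 0 < p := by omega
  have hwp : w ≤ w * p := Nat.le_mul_of_pos_right _ hp
  unfold gs
  rw [per_spec, mask_eq _ _ _ (by positivity)]
  have h1 : pk w (p * H) (fun i => f (i % H)) =
      pk w (p * H) (fun i => if i < p * H then f (i % H) else 0) :=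
    pk_congr _ _ fun i hi => by rw [if_pos hi]
  rw [h1, pk_shiftRight _ _ _ _ (fun i => by
      split
      · exact hf _ (Nat.mod_lt _ hH)
      · positivity) (fun i hi => by rw [if_neg (by omega)]), mul_comm p H, pk_blocks,
    pk_land _ _ _ _ (fun i _ => ?_) (fun i _ => ?_)]
  · refine pk_congr _ _ fun i hi => ?_
    rw [Nat.and_two_pow_sub_one_eq_mod, pk_mod _ _ _ hp hb]
    have h2 : i * p + 0 + q < H * p := by
      calc i * p + 0 + q < i * p + p := by omega
        _ = (i + 1) * p := by ring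
        _ ≤ H * p := Nat.mul_le_mul_right _ hi
    simp only [h2, if_true]
    congr 2
    ring_nf
  · apply pk_lt
    intro h _
    split
    · exact hf _ (Nat.mod_lt _ hH)
    · positivity
  · have : 2 ^ b ≤ 2 ^ (w * p) := Nat.pow_le_pow_right (by norm_num) (hb.trans hwp)
    have : 1 ≤ 2 ^ b := Nat.one_le_two_pow
    omega

theorem fl_spec (W H b d : ℕ) (hW : 0 < W) (hbd : b + d ≤ W) (g : ℕ → ℕ)
    (hg : ∀ i < H, g i < 2 ^ W) :
    fl W H b d (pk W H g) = pk W H (fun i => g i / 2 ^ d % 2 ^ b) := by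
  unfold fl
  rw [mask_eq _ _ _ hW, Nat.shiftRight_eq_div_pow]
  induction H generalizing g with
  | zero => simp [pk_zero]
  | succ H ih =>
    rw [pk_succ' W H g, pk_succ' W H (fun _ => 2 ^ b - 1), pk_succ']
    have e1 : 2 ^ W = 2 ^ d * 2 ^ (W - d) := by rw [← pow_add]; congr 1; omega
    set R := pk W H (fun i => g (i + 1)) with hR
    have e2 : (g 0 + 2 ^ W * R) / 2 ^ d =
        (g 0 / 2 ^ d + 2 ^ (W - d) * (R % 2 ^ d)) + 2 ^ W * (R / 2 ^ d) := by
      rw [e1, mul_assoc, Nat.add_mul_div_left _ _ (by positivity), add_assoc]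
      congr 1
      calc 2 ^ (W - d) * R = 2 ^ (W - d) * (R % 2 ^ d + 2 ^ d * (R / 2 ^ d)) := by
            rw [Nat.mod_add_div]
        _ = _ := by ring
    have e3 : g 0 / 2 ^ d + 2 ^ (W - d) * (R % 2 ^ d) < 2 ^ W := by
      have a1 : g 0 / 2 ^ d < 2 ^ (W - d) := by
        rw [Nat.div_lt_iff_lt_mul (by positivity), mul_comm, ← e1]
        exact hg 0 (by omega)
      have a2 : R % 2 ^ d + 1 ≤ 2 ^ d := Nat.mod_lt _ (by positivity)
      calc g 0 / 2 ^ d + 2 ^ (W - d) * (R % 2 ^ d)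
          < 2 ^ (W - d) + 2 ^ (W - d) * (R % 2 ^ d) := by omega
        _ = 2 ^ (W - d) * (R % 2 ^ d + 1) := by ring
        _ ≤ 2 ^ (W - d) * 2 ^ d := Nat.mul_le_mul_left _ a2
        _ = 2 ^ W := by rw [e1]; ring
    have e4 : 2 ^ b - 1 < 2 ^ W := by
      have : 2 ^ b ≤ 2 ^ W := Nat.pow_le_pow_right (by norm_num) (by omega)
      have : 1 ≤ 2 ^ b := Nat.one_le_two_pow
      omega
    rw [e2, land_split _ _ _ _ _ e3 e4, ih _ (fun i hi => hg (i + 1) (by omega)),
      Nat.and_two_pow_sub_one_eq_mod]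
    congr 1
    obtain ⟨c, hc⟩ := pow_dvd_pow 2 (show b ≤ W - d by omega)
    rw [hc, mul_assoc, Nat.add_mul_mod_self_left]

theorem leq_spec (W H : ℕ) (hW : 0 < W) (f g : ℕ → ℕ) (hf : ∀ i < H, f i < 2 ^ (W - 1))
    (hg : ∀ i < H, g i < 2 ^ (W - 1)) (h : leq W H (pk W H f) (pk W H g) = true) :
    ∀ i < H, f i ≤ g i := by
  unfold leq at h
  rw [beq_iff_eq, ones_eq _ _ hW, pk_mul, pk_add] at h
  have e0 : 2 ^ W = 2 ^ (W - 1) + 2 ^ (W - 1) := by
    rw [← two_mul, ← pow_succ']; congr 1; omega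
  have e1 : pk W H (fun i => g i + 2 ^ (W - 1) * 1) - pk W H f =
      pk W H (fun i => g i + 2 ^ (W - 1) - f i) := by
    have : pk W H (fun i => g i + 2 ^ (W - 1) * 1) =
        pk W H f + pk W H (fun i => g i + 2 ^ (W - 1) - f i) := by
      rw [pk_add]
      refine pk_congr _ _ fun i hi => ?_
      have := hf i hi
      omega
    rw [this, Nat.add_sub_cancel_left]
  rw [e1, pk_land _ _ _ _ (fun i hi => ?_) (fun i hi => ?_)] at h
  · intro i hi
    have h1W := Nat.one_le_two_pow (n := W - 1)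
    have h2 : (g i + 2 ^ (W - 1) - f i) &&& (2 ^ (W - 1) * 1) = 2 ^ (W - 1) * 1 :=
      pk_inj W H _ _ (fun i _ => lt_of_le_of_lt Nat.and_le_right (by rw [e0]; omega))
        (fun i _ => by rw [e0]; omega) h i hi
    have h3 : (g i + 2 ^ (W - 1) - f i) &&& (2 ^ (W - 1) * 1) ≤ g i + 2 ^ (W - 1) - f i :=
      Nat.and_le_left
    rw [h2] at h3
    have := hf i hi
    omega
  · have := hg i hi
    omega
  · have := Nat.one_le_two_pow (n := W - 1)
    omega

end Q158.KL
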