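import Pool.Agent.Q158.KL.Root

/-!
# Lower bounds for predecessor counts
-/

namespace Q158.KL

open Finset

theorem Td_two_pow_le (d o : ℤ) (m t : ℕ) (h : m ≤ t) :
    (Td d)^[m] (2 ^ t * o) = 2 ^ (t - m) * o := by
  obtain ⟨r, rfl⟩ := Nat.exists_eq_add_of_le h
  rw [Nat.add_sub_cancel_left, pow_add, mul_assoc, Td_two_pow]

/-- `n` reaches `a` after `j` steps through positive integers `≤ B`. -/
def Reach (d a B n : ℤ) (j : ℕ) : Prop :=
  (Td d)^[j] n = a ∧ ∀ i ≤ j, 0 < (Td d)^[i] n ∧ (Td d)^[i] n ≤ B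

open Classical in
/-- The odd part. -/
noncomputable def oddPart (u : ℤ) : ℤ :=
  if h : ∃ o : ℤ, o % 2 = 1 ∧ ∃ t : ℕ, u = 2 ^ t * o then h.choose else 0

theorem oddPart_spec (u : ℤ) (hu : 0 < u) : oddPart u % 2 = 1 ∧ ∃ t : ℕ, u = 2 ^ t * oddPart u := by
  have h : ∃ o : ℤ, o % 2 = 1 ∧ ∃ t : ℕ, u = 2 ^ t * o := by
    lift u to ℕ using hu.le
    obtain ⟨t, m, hm, hu'⟩ := Nat.exists_eq_two_pow_mul_odd (n := u) (by omega)
    refine ⟨m, ?_, t, by rw [hu']; push_cast; ring⟩
    have := Nat.odd_iff.1 hm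
    omega
  unfold oddPart
  rw [dif_pos h]
  exact h.choose_spec

open Classical in
/-- The main counting theorem for a root `2 ^ r * a`. -/
theorem core {k A B1 B2 D : ℕ} {c e : ℕ → ℕ} (hC : Cert k A B1 B2 D c e) {γ θ θ' : ℝ}
    (hN : Num A B1 B2 D γ θ θ') : ∃ C K : ℝ, 0 < C ∧ 0 < K ∧ ∀ d a : ℤ, ¬ (3 : ℤ) ∣ d →
      d % 2 = 1 → 0 < a → ∀ r : ℕ, Node d (2 ^ r * a) →
      (∀ v : ℤ, 0 < v → Node d v → (∃ j, (Gd d)^[j] v = 2 ^ r * a) →
        d < 2 * v ∧ -(d : ℝ) ≤ 2 * (θ' - 1) * v) → ∀ x : ℤ, 4 * (2 ^ r * a) ≤ x →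
        C * ((x : ℝ) / (2 ^ r * a)) ^ γ ≤ (((Ioc 0 x).filter (fun u =>
          ∃ j : ℕ, (j : ℝ) ≤ K * Real.log (2 * x) + r ∧ Reach d a u u j)).card : ℝ) ∧
        (a % 2 = 1 → C * ((x : ℝ) / (2 ^ r * a)) ^ γ ≤ (((Ioc 0 x).filter (fun u => u % 2 = 1 ∧
          ∃ j : ℕ, (j : ℝ) ≤ K * Real.log (2 * x) + r ∧ Reach d a x u j)).card : ℝ)) := by
  obtain ⟨C, K, hC0, hK0, hmain⟩ := count_nodes hC hN
  refine ⟨C / 8, 2 * K, by positivity, by positivity, ?_⟩
  intro d a hd hd2 ha r hn hgood x hx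
  set ρ : ℤ := 2 ^ r * a with hρ
  have hρ0 : 0 < ρ := by positivity
  have hρr : (0 : ℝ) < ρ := by exact_mod_cast hρ0
  set X : ℤ := x / 4 with hX
  have hXρ : ρ ≤ X := by omega
  have h4X : 4 * X ≤ x := by omega
  have h8X : x ≤ 8 * X := by omega
  have hXr : (0 : ℝ) < X := by exact_mod_cast (by omega : 0 < X)
  have hxr : (0 : ℝ) < x := by exact_mod_cast (by omega : 0 < x)
  have h1 := hmain d ρ hd hd2 hn hρ0 hgood X hXρ
  set F := (Ioc X (4 * X)).filter (fun u => Node d u ∧
      ∃ j : ℕ, (j : ℝ) ≤ K * Real.log (2 * X) ∧ 0 < j ∧ Path d ρ X (Gd d u) (j - 1)) with hF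
  have hcast : ((2 : ℝ) ^ r * a) = (ρ : ℝ) := by rw [hρ]; push_cast; ring
  rw [hcast]
  have h2 : C / 8 * ((x : ℝ) / ρ) ^ γ ≤ C * ((X : ℝ) / ρ) ^ γ := by
    have h3 : (x : ℝ) / ρ ≤ 8 * ((X : ℝ) / ρ) := by
      rw [← mul_div_assoc]
      apply div_le_div_of_nonneg_right _ hρr.le
      exact_mod_cast h8X
    have h4 : ((x : ℝ) / ρ) ^ γ ≤ 8 ^ γ * ((X : ℝ) / ρ) ^ γ := by
      rw [← Real.mul_rpow (by norm_num) (by positivity)]
      exact Real.rpow_le_rpow (by positivity) h3 hN.γ0.le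
    have h5 : (8 : ℝ) ^ γ ≤ 8 := by
      calc (8 : ℝ) ^ γ ≤ 8 ^ (1 : ℝ) := Real.rpow_le_rpow_of_exponent_le (by norm_num) hN.γ1
        _ = 8 := Real.rpow_one _
    have h6 : 0 ≤ ((X : ℝ) / ρ) ^ γ := by positivity
    calc C / 8 * ((x : ℝ) / ρ) ^ γ ≤ C / 8 * (8 * ((X : ℝ) / ρ) ^ γ) := by
          apply mul_le_mul_of_nonneg_left _ (by positivity)
          exact h4.trans (mul_le_mul_of_nonneg_right h5 h6)
      _ = _ := by ring
  have hlog : Real.log (2 * X) ≤ Real.log (2 * x) := by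
    apply Real.log_le_log (by positivity)
    have : (X : ℝ) ≤ x := by exact_mod_cast (by omega : X ≤ x)
    linarith
  -- every node of `F` reaches `a` below itself
  have hreach : ∀ u ∈ F, X < u ∧ u ≤ 4 * X ∧ Node d u ∧
      ∃ j : ℕ, (j : ℝ) ≤ 2 * K * Real.log (2 * x) + r ∧ Reach d a u u j := by
    intro u hu
    rw [hF, mem_filter, mem_Ioc] at hu
    obtain ⟨⟨hu1, hu2⟩, hu3, j, hj, hj0, hju, hjp⟩ := hu
    obtain ⟨j, rfl⟩ : ∃ t, j = t + 1 := ⟨j - 1, by omega⟩
    rw [Nat.add_sub_cancel] at hju hjp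
    obtain ⟨i, hi, hiu, his⟩ := Td_path d u (j + 1) u (by
      intro i hi
      rcases i with _ | i
      · exact ⟨by show 0 < u; omega, le_refl u⟩
      · rw [Function.iterate_succ_apply]
        have := hjp i (by omega)
        exact ⟨this.2.1, by omega⟩)
    rw [Function.iterate_succ_apply, hju] at hiu
    refine ⟨hu1, hu2, hu3, r + i, ?_, ?_, ?_⟩
    · have : (i : ℝ) ≤ 2 * (j + 1 : ℕ) := by exact_mod_cast hi
      push_cast at this hj ⊢
      nlinarith
    · rw [Function.iterate_add_apply, hiu, hρ, Td_two_pow]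
    · intro s hs
      rcases le_or_gt s i with hsi | hsi
      · exact his s hsi
      · obtain ⟨q, rfl⟩ := Nat.exists_eq_add_of_le hsi.le
        rw [add_comm i q, Function.iterate_add_apply, hiu, hρ, Td_two_pow_le d a q r (by omega)]
        refine ⟨by positivity, ?_⟩
        have : (2 : ℤ) ^ (r - q) * a ≤ 2 ^ r * a :=
          mul_le_mul_of_nonneg_right (pow_le_pow_right₀ (by norm_num) (by omega)) ha.le
        omega
  constructor
  · refine (h2.trans h1).trans ?_
    have : F ⊆ (Ioc 0 x).filter (fun u =>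
          ∃ j : ℕ, (j : ℝ) ≤ 2 * K * Real.log (2 * x) + r ∧ Reach d a u u j) := by
      intro u hu
      obtain ⟨h3, h4, _, h5⟩ := hreach u hu
      rw [mem_filter, mem_Ioc]
      exact ⟨⟨by omega, by omega⟩, h5⟩
    exact_mod_cast card_le_card this
  · intro ha2
    refine (h2.trans h1).trans ?_
    have : F.card ≤ ((Ioc 0 x).filter (fun u => u % 2 = 1 ∧
          ∃ j : ℕ, (j : ℝ) ≤ 2 * K * Real.log (2 * x) + r ∧ Reach d a x u j)).card := by
      refine card_le_card_of_injOn oddPart ?_ ?_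
      · intro u hu
        obtain ⟨h3, h4, _, j, hj, hju, hjp⟩ := hreach u hu
        have hu0 : 0 < u := by omega
        obtain ⟨h5, t, ht⟩ := oddPart_spec u hu0
        have hop : 0 < oddPart u := by
          by_contra h
          have : 2 ^ t * oddPart u ≤ 0 :=
            mul_nonpos_of_nonneg_of_nonpos (by positivity) (by omega)
          omega
        have hole : oddPart u ≤ u := by
          have h6 : (1 : ℤ) ≤ 2 ^ t := one_le_pow₀ (by norm_num)
          nlinarith
        rw [mem_coe, mem_filter, mem_Ioc]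
        refine ⟨⟨hop, by omega⟩, h5, ?_⟩
        have htj : t ≤ j := by
          by_contra h
          push Not at h
          rw [ht, Td_two_pow_le d _ j t h.le] at hju
          obtain ⟨s, hs⟩ : ∃ s, t - j = s + 1 := ⟨t - j - 1, by omega⟩
          rw [hs, pow_succ] at hju
          have : (2 : ℤ) ∣ a := ⟨2 ^ s * oddPart u, by rw [← hju]; ring⟩
          omega
        have h7 : (Td d)^[t] u = oddPart u := by
          conv_lhs => rw [ht]
          exact Td_two_pow d _ t
        refine ⟨j - t, ?_, ?_, ?_⟩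
        · refine le_trans ?_ hj
          exact_mod_cast Nat.sub_le _ _
        · rw [← h7, ← Function.iterate_add_apply, Nat.sub_add_cancel htj, hju]
        · intro i hi
          rw [← h7, ← Function.iterate_add_apply]
          have := hjp (i + t) (by omega)
          exact ⟨this.1, by omega⟩
      · intro u hu u' hu' huu
        obtain ⟨h3, h4, h5, -⟩ := hreach u hu
        obtain ⟨h3', h4', h5', -⟩ := hreach u' hu'
        obtain ⟨-, t, ht⟩ := oddPart_spec u (by omega)
        obtain ⟨-, t', ht'⟩ := oddPart_spec u' (by omega)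
        -- symmetric argument
        have key : ∀ (w w' : ℤ) (s s' : ℕ), X < w → w' ≤ 4 * X → Node d w → Node d w' →
            w = 2 ^ s * oddPart u → w' = 2 ^ s' * oddPart u → ¬ s < s' := by
          intro w w' s s' g1 g2 g3 g4 g5 g6 hss
          obtain ⟨q, hq⟩ := Nat.exists_eq_add_of_lt hss
          have g7 : w' = 2 ^ (q + 1) * w := by
            rw [g5, g6, hq]; ring
          have hw0 : 0 < w := by omega
          rcases q with _ | q
          · rw [zero_add, pow_one] at g7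
            unfold Node at g3 g4
            omega
          · have g8 : (4 : ℤ) ≤ 2 ^ (q + 1 + 1) := by
              rw [pow_succ, pow_succ]
              have : (1 : ℤ) ≤ 2 ^ q := one_le_pow₀ (by norm_num)
              omega
            nlinarith
        have ht'' : u' = 2 ^ t' * oddPart u := by
          conv_lhs => rw [ht']
          rw [huu]
        have e1 := key u u' t t' h3 h4' h5 h5' ht ht''
        have e2 := key u' u t' t h3' h4 h5' h5 ht'' ht
        have e3 : t = t' := by omega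
        rw [ht, ht'', e3]
    exact_mod_cast this

end Q158.KL
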