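import Pool.Agent.Q158.KL.Cert

/-!
# The backward tree of the `3x + d` map

Nodes are the integers `v ≡ 2 d` modulo `3`.  The children of a node `v` are `4 v` and, depending
on `v` modulo `9`, the integer `(4 v - 2 d) / 3` or `(2 v - d) / 3`.
-/

namespace Q158.KL

/-- The `3x + d` map. -/
def Td (d n : ℤ) : ℤ := if n % 2 = 0 then n / 2 else (3 * n + d) / 2

/-- The forward map of the tree. -/
def Gd (d n : ℤ) : ℤ := if n % 2 = 0 then Td d (Td d n) else Td d n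

/-- Nodes. -/
def Node (d v : ℤ) : Prop := (3 : ℤ) ∣ v - 2 * d

/-- The index of a node, as a relation. -/
def Idx (k : ℕ) (d v : ℤ) (i : ℤ) : Prop := (9 * 3 ^ k : ℤ) ∣ v - d * (3 * i + 2)

theorem Gd_four (d v : ℤ) : Gd d (4 * v) = v := by
  unfold Gd Td
  split_ifs <;> omega

theorem Gd_even (d v u : ℤ) (hd : d % 2 = 1) (h : 3 * u = 4 * v - 2 * d) : Gd d u = v := by
  unfold Gd Td
  split_ifs <;> omega

theorem Gd_odd (d v u : ℤ) (hd : d % 2 = 1) (h : 3 * u = 2 * v - d) : Gd d u = v := by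
  unfold Gd Td
  split_ifs <;> omega

theorem exists_idx (k : ℕ) (d v : ℤ) (hd : ¬ (3 : ℤ) ∣ d) (hv : Node d v) :
    ∃ i : ℕ, i < 3 ^ (k + 1) ∧ Idx k d v i := by
  have hcop : IsCoprime d ((3 : ℤ) ^ (k + 2)) := by
    apply IsCoprime.pow_right
    exact ((Int.prime_three.coprime_iff_not_dvd).2 hd).symm
  obtain ⟨a, b, hab⟩ := hcop
  -- `a d + b 3^(k+2) = 1`
  have hM : (0 : ℤ) < 3 ^ (k + 2) := by positivity
  set r := (v * a) % 3 ^ (k + 2) with hr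
  have hr0 : 0 ≤ r := Int.emod_nonneg _ hM.ne'
  have hr1 : r < 3 ^ (k + 2) := Int.emod_lt_of_pos _ hM
  have h9 : (3 : ℤ) ^ (k + 2) = 9 * 3 ^ k := by rw [pow_add]; ring
  have hdvd : (9 * 3 ^ k : ℤ) ∣ v - d * r := by
    have h1 : (3 : ℤ) ^ (k + 2) ∣ v * a - r := by
      rw [hr]; exact Int.dvd_self_sub_emod
    obtain ⟨z, hz⟩ := h1
    refine ⟨b * v + d * z, ?_⟩
    rw [← h9]
    linear_combination (-v) * hab + d * hz
  -- the residue of `r` modulo `3`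
  have h3 : (3 : ℤ) ∣ r - 2 := by
    have h4 : (3 : ℤ) ∣ v - d * r := dvd_trans ⟨3 * 3 ^ k, by ring⟩ hdvd
    have h5 : (3 : ℤ) ∣ d * (r - 2) := by
      have : d * (r - 2) = (v - 2 * d) - (v - d * r) := by ring
      rw [this]
      exact dvd_sub hv h4
    rcases Int.prime_three.dvd_or_dvd h5 with h6 | h6
    · exact absurd h6 hd
    · exact h6
  obtain ⟨i, hi⟩ := h3
  have hi0 : 0 ≤ i := by omega
  lift i to ℕ using hi0
  refine ⟨i, ?_, ?_⟩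
  · have : (3 : ℤ) * i < 3 * 3 ^ (k + 1) := by
      have : (3 : ℤ) ^ (k + 2) = 3 * 3 ^ (k + 1) := by ring
      omega
    have h6 : (i : ℤ) < 3 ^ (k + 1) := by linarith
    exact_mod_cast h6
  · unfold Idx
    rw [show (3 : ℤ) * i + 2 = r by linarith]
    exact hdvd

/-- Uniqueness of the index at a lower level. -/
theorem idx_unique (m : ℕ) (d v : ℤ) (hd : ¬ (3 : ℤ) ∣ d) (i j : ℕ)
    (hi : (3 * 3 ^ m : ℤ) ∣ v - d * (3 * i + 2)) (hj : (3 * 3 ^ m : ℤ) ∣ v - d * (3 * j + 2)) :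
    i % 3 ^ m = j % 3 ^ m := by
  have h1 : (3 * 3 ^ m : ℤ) ∣ 3 * (d * ((i : ℤ) - j)) := by
    have : 3 * (d * ((i : ℤ) - j)) = (v - d * (3 * j + 2)) - (v - d * (3 * i + 2)) := by ring
    rw [this]
    exact dvd_sub hj hi
  have h2 : (3 ^ m : ℤ) ∣ d * ((i : ℤ) - j) := (mul_dvd_mul_iff_left (by norm_num)).1 h1
  have hcop : IsCoprime ((3 : ℤ) ^ m) d := by
    apply IsCoprime.pow_left
    exact (Int.prime_three.coprime_iff_not_dvd).2 hd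
  have h3 : (3 ^ m : ℤ) ∣ (i : ℤ) - j := hcop.dvd_of_dvd_mul_left h2
  have h4 : (j : ℤ) ≡ i [ZMOD ((3 ^ m : ℕ) : ℤ)] := by
    rw [Int.modEq_iff_dvd]; push_cast; exact h3
  exact ((Int.natCast_modEq_iff).1 h4).symm

open Classical in
/-- The index of a node. -/
noncomputable def ix (k : ℕ) (d v : ℤ) : ℕ :=
  if h : ∃ i : ℕ, i < 3 ^ (k + 1) ∧ Idx k d v i then h.choose else 0

theorem ix_spec (k : ℕ) (d v : ℤ) (hd : ¬ (3 : ℤ) ∣ d) (hv : Node d v) :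
    ix k d v < 3 ^ (k + 1) ∧ Idx k d v (ix k d v) := by
  have h := exists_idx k d v hd hv
  unfold ix
  rw [dif_pos h]
  exact h.choose_spec

theorem ix_lt (k : ℕ) (d v : ℤ) : ix k d v < 3 ^ (k + 1) := by
  classical
  unfold ix
  split
  · next h => exact h.choose_spec.1
  · positivity

theorem ix_eq (k : ℕ) (d v : ℤ) (hd : ¬ (3 : ℤ) ∣ d) (hv : Node d v) (j : ℕ)
    (hj : (3 * 3 ^ (k + 1) : ℤ) ∣ v - d * (3 * j + 2)) : ix k d v = j % 3 ^ (k + 1) := by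
  obtain ⟨h1, h2⟩ := ix_spec k d v hd hv
  have := idx_unique (k + 1) d v hd (ix k d v) j (by
    have e : (3 * 3 ^ (k + 1) : ℤ) = 9 * 3 ^ k := by ring
    rw [e]; exact h2) hj
  rwa [Nat.mod_eq_of_lt h1] at this

theorem ix_mod (k : ℕ) (d v : ℤ) (hd : ¬ (3 : ℤ) ∣ d) (hv : Node d v) (j : ℕ)
    (hj : (3 * 3 ^ k : ℤ) ∣ v - d * (3 * j + 2)) : ix k d v % 3 ^ k = j % 3 ^ k := by
  obtain ⟨h1, h2⟩ := ix_spec k d v hd hv
  exact idx_unique k d v hd (ix k d v) j (dvd_trans ⟨3, by ring⟩ h2) hj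

/-- The child `4 v`. -/
theorem child_four (k : ℕ) (d v : ℤ) (hd : ¬ (3 : ℤ) ∣ d) (hv : Node d v) :
    Node d (4 * v) ∧ ix k d (4 * v) = (4 * ix k d v + 2) % 3 ^ (k + 1) := by
  have h1 : Node d (4 * v) := by unfold Node at *; omega
  refine ⟨h1, ix_eq k d _ hd h1 _ ?_⟩
  obtain ⟨z, hz⟩ := (ix_spec k d v hd hv).2
  refine ⟨4 * z, ?_⟩
  push_cast
  rw [pow_succ]
  linear_combination 4 * hz

/-- The child `(4 v - 2 d) / 3`. -/
theorem child_even (k : ℕ) (d v : ℤ) (hd : ¬ (3 : ℤ) ∣ d) (hv : Node d v)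
    (h0 : ix k d v % 3 = 0) :
    ∃ u, 3 * u = 4 * v - 2 * d ∧ Node d u ∧ ix k d u % 3 ^ k = (4 * (ix k d v / 3)) % 3 ^ k := by
  obtain ⟨z, hz⟩ := (ix_spec k d v hd hv).2
  obtain ⟨s, hs⟩ : ∃ s : ℕ, ix k d v = 3 * s := ⟨ix k d v / 3, by omega⟩
  rw [hs] at hz
  push_cast at hz
  refine ⟨d * (3 * (4 * s) + 2) + 3 * 3 ^ k * (4 * z), ?_, ?_⟩
  · linear_combination (-4) * hz
  · have hn : Node d (d * (3 * (4 * s) + 2) + 3 * 3 ^ k * (4 * z)) :=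
      ⟨d * (4 * s) + 3 ^ k * (4 * z), by ring⟩
    refine ⟨hn, ?_⟩
    rw [hs, Nat.mul_div_cancel_left _ (by norm_num)]
    apply ix_mod k d _ hd hn
    exact ⟨4 * z, by push_cast; ring⟩

/-- The child `(2 v - d) / 3`. -/
theorem child_odd (k : ℕ) (d v : ℤ) (hd : ¬ (3 : ℤ) ∣ d) (hv : Node d v)
    (h0 : ix k d v % 3 = 2) :
    ∃ u, 3 * u = 2 * v - d ∧ Node d u ∧
      ix k d u % 3 ^ k = (2 * (ix k d v / 3) + 1) % 3 ^ k := by
  obtain ⟨z, hz⟩ := (ix_spec k d v hd hv).2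
  obtain ⟨s, hs⟩ : ∃ s : ℕ, ix k d v = 3 * s + 2 := ⟨ix k d v / 3, by omega⟩
  rw [hs] at hz
  push_cast at hz
  refine ⟨d * (3 * (2 * s + 1) + 2) + 3 * 3 ^ k * (2 * z), ?_, ?_⟩
  · linear_combination (-2) * hz
  · have hn : Node d (d * (3 * (2 * s + 1) + 2) + 3 * 3 ^ k * (2 * z)) :=
      ⟨d * (2 * s + 1) + 3 ^ k * (2 * z), by ring⟩
    refine ⟨hn, ?_⟩
    rw [hs, show (3 * s + 2) / 3 = s by omega]
    apply ix_mod k d _ hd hn
    exact ⟨2 * z, by push_cast; ring⟩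

end Q158.KL
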