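import Pool.Agent.Q158.KL.Pk

/-!
# Operations on packed vectors: masks, gathering, compressing, comparing
-/

namespace Q158.KL

open Finset

theorem ones_eq (W N : ℕ) (hW : 0 < W) : ones W N = pk W N (fun _ => 1) := by
  have h1 : (2 ^ W - 1) * pk W N (fun _ => 1) = 2 ^ (W * N) - 1 := by
    induction N with
    | zero => simp [pk_zero]
    | succ N ih =>
      rw [pk_succ, mul_add, ih, mul_add W N 1, pow_add]
      have h2 : 1 ≤ 2 ^ (W * N) := Nat.one_le_two_pow
      have h3 : 1 ≤ 2 ^ W := Nat.one_le_two_pow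
      zify [h2, h3, Nat.one_le_two_pow.trans (Nat.le_mul_of_pos_right (2 ^ (W * N))
        (by positivity : 0 < 2 ^ (W * 1)))]
      ring
  have h2 : 0 < 2 ^ W - 1 := by
    have : 2 ^ 1 ≤ 2 ^ W := Nat.pow_le_pow_right (by norm_num) hW
    omega
  unfold ones
  rw [← h1, Nat.mul_div_cancel_left _ h2]

theorem merge_spec (B P N : ℕ) (g : ℕ → ℕ) (hBP : B ≤ P)
    (hg : ∀ i < 2 * N, g i < 2 ^ B) :
    merge B P (pk (2 * P) N (fun _ => 1)) (pk P (2 * N) g) =
      pk (2 * P) N (fun b => g (2 * b) + g (2 * b + 1) * 2 ^ B) := by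
  have hP : 2 ^ B ≤ 2 ^ P := Nat.pow_le_pow_right (by norm_num) hBP
  have h2P : 2 ^ P ≤ 2 ^ (2 * P) := Nat.pow_le_pow_right (by norm_num) (by omega)
  have h1 : pk P (2 * N) g = pk (2 * P) N (fun b => g (2 * b) + 2 ^ B * (g (2 * b + 1) *
      2 ^ (P - B))) := by
    rw [mul_comm 2 N, pk_blocks, mul_comm P 2]
    refine pk_congr _ _ fun b _ => ?_
    have : 2 ^ P = 2 ^ B * 2 ^ (P - B) := by rw [← pow_add]; congr 1; omega
    rw [pk_succ, pk_one, mul_one, this, mul_comm b 2]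
    ring_nf
  have hmask : (pk (2 * P) N (fun _ => 1) <<< B) - pk (2 * P) N (fun _ => 1) =
      pk (2 * P) N (fun _ => 2 ^ B - 1) := by
    rw [Nat.shiftLeft_eq, mul_comm, ← Nat.sub_one_mul, pk_mul]
    simp
  have h1B : 1 ≤ 2 ^ B := Nat.one_le_two_pow
  have hlt : ∀ b < N, g (2 * b) + 2 ^ B * (g (2 * b + 1) * 2 ^ (P - B)) < 2 ^ (2 * P) := by
    intro b hb
    have e1 : g (2 * b) + 1 ≤ 2 ^ B := hg _ (by omega)
    have e2 : g (2 * b + 1) + 1 ≤ 2 ^ B := hg _ (by omega)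
    have e3 : 2 ^ P = 2 ^ B * 2 ^ (P - B) := by rw [← pow_add]; congr 1; omega
    calc g (2 * b) + 2 ^ B * (g (2 * b + 1) * 2 ^ (P - B))
        = g (2 * b) + g (2 * b + 1) * 2 ^ P := by rw [e3]; ring
      _ < 2 ^ P + g (2 * b + 1) * 2 ^ P := by omega
      _ = (g (2 * b + 1) + 1) * 2 ^ P := by ring
      _ ≤ 2 ^ P * 2 ^ P := Nat.mul_le_mul_right _ (e2.trans hP)
      _ = 2 ^ (2 * P) := by rw [← pow_add]; congr 1; ring
  have hand : pk P (2 * N) g &&& pk (2 * P) N (fun _ => 2 ^ B - 1) =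
      pk (2 * P) N (fun b => g (2 * b)) := by
    rw [h1, pk_land _ _ _ _ hlt (fun i _ => by omega)]
    refine pk_congr _ _ fun b hb => ?_
    rw [Nat.and_two_pow_sub_one_eq_mod, Nat.add_mul_mod_self_left,
      Nat.mod_eq_of_lt (hg _ (by omega))]
  unfold merge
  rw [hmask, hand]
  have h3 : pk P (2 * N) g - pk (2 * P) N (fun b => g (2 * b)) =
      2 ^ (P - B) * pk (2 * P) N (fun b => g (2 * b + 1) * 2 ^ B) := by
    rw [h1, ← pk_add, Nat.add_sub_cancel_left, pk_mul]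
    exact pk_congr _ _ fun b _ => by ring
  rw [h3, Nat.shiftRight_eq_div_pow, Nat.mul_div_cancel_left _ (by positivity), pk_add]

theorem cp_spec (w p : ℕ) (hw : 0 < w) (hp : 1 ≤ p) (f : ℕ → ℕ) (L N : ℕ)
    (hf : ∀ i < N * 2 ^ L, f i < 2 ^ w) :
    cp w p L (pk (w * p * 2 ^ L) N (fun _ => 1)) (pk (w * p) (N * 2 ^ L) f) =
      pk (w * p * 2 ^ L) N (fun b => pk w (2 ^ L) (fun h => f (b * 2 ^ L + h))) := by
  induction L generalizing N with
  | zero =>
    simp only [cp, pow_zero, mul_one]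
    exact pk_congr _ _ fun b _ => by rw [pk_one]; simp
  | succ L ih =>
    have hB : w * 2 ^ L ≤ w * p * 2 ^ L := by
      rw [mul_assoc]
      exact Nat.mul_le_mul_left _ (Nat.le_mul_of_pos_left _ hp)
    have e1 : w * p * 2 ^ (L + 1) = 2 * (w * p * 2 ^ L) := by rw [pow_succ]; ring
    have e2 : N * 2 ^ (L + 1) = (2 * N) * 2 ^ L := by rw [pow_succ]; ring
    have hr : pk (w * p * 2 ^ (L + 1)) N (fun _ => 1) +
        pk (w * p * 2 ^ (L + 1)) N (fun _ => 1) <<< (w * p * 2 ^ L) =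
        pk (w * p * 2 ^ L) (2 * N) (fun _ => 1) := by
      rw [e1, mul_comm 2 N, pk_blocks, mul_comm (w * p * 2 ^ L) 2, Nat.shiftLeft_eq,
        mul_comm (pk _ _ _) (2 ^ _), pk_mul, pk_add]
      refine pk_congr _ _ fun b _ => ?_
      rw [pk_succ, pk_one]
      ring
    rw [cp, hr, e2, ih (2 * N) (fun i hi => hf i (by rw [e2]; exact hi)), e1,
      merge_spec _ _ _ _ hB ?_]
    · refine pk_congr _ _ fun b _ => ?_
      rw [pow_succ, mul_two, pk_append]
      congr 1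
      · refine pk_congr _ _ fun h _ => ?_
        congr 1
        ring
      · congr 1
        refine pk_congr _ _ fun h _ => ?_
        congr 1
        ring
    · intro i hi
      apply pk_lt
      intro h hh
      apply hf
      rw [e2]
      calc i * 2 ^ L + h < (i + 1) * 2 ^ L := by rw [add_mul, one_mul]; omega
        _ ≤ (2 * N) * 2 ^ L := Nat.mul_le_mul_right _ hi

/-- Compress `H ≤ 2 ^ L` digits of width `w` from stride `w * p` to stride `w`. -/
theorem cp_one (w p L H : ℕ) (hw : 0 < w) (hp : 1 ≤ p) (hH : H ≤ 2 ^ L) (f : ℕ → ℕ)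
    (hf : ∀ i < H, f i < 2 ^ w) : cp w p L 1 (pk (w * p) H f) = pk w H f := by
  have h1 := cp_spec w p hw hp (fun i => if i < H then f i else 0) L 1 (by
    intro i _
    split
    · exact hf i (by assumption)
    · positivity)
  rw [one_mul, pk_one, pk_one] at h1
  rw [pk_extend (w * p) H (2 ^ L) f hH, h1, pk_extend w H (2 ^ L) f hH]
  simp

end Q158.KL
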