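import Mathlib
import Pool.Agent.Q158.KL.Defs

/-!
# Packed vectors of natural numbers

`pk w N f` is the number whose base `2 ^ w` digits are `f 0, …, f (N - 1)`.  The operations below
(regrouping, masking, gathering a residue class of positions, compressing) act on all the digits
at once.
-/

namespace Q158.KL

open Finset

/-- The number with the base `2 ^ w` digits `f 0, …, f (N - 1)`. -/
def pk (w N : ℕ) (f : ℕ → ℕ) : ℕ := ∑ i ∈ range N, f i * 2 ^ (w * i)

theorem pk_zero (w : ℕ) (f : ℕ → ℕ) : pk w 0 f = 0 := by simp [pk]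

theorem pk_one (w : ℕ) (f : ℕ → ℕ) : pk w 1 f = f 0 := by simp [pk]

theorem pk_succ (w N : ℕ) (f : ℕ → ℕ) : pk w (N + 1) f = pk w N f + f N * 2 ^ (w * N) := by
  simp [pk, sum_range_succ]

theorem pk_succ' (w N : ℕ) (f : ℕ → ℕ) :
    pk w (N + 1) f = f 0 + 2 ^ w * pk w N (fun i => f (i + 1)) := by
  unfold pk
  rw [sum_range_succ', mul_sum, add_comm]
  congr 1
  · simp
  · refine sum_congr rfl fun i _ => ?_
    rw [mul_add, pow_add]
    ring

theorem pk_congr (w N : ℕ) {f g : ℕ → ℕ} (h : ∀ i < N, f i = g i) : pk w N f = pk w N g :=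
  sum_congr rfl fun i hi => by rw [h i (mem_range.1 hi)]

theorem pk_lt (w N : ℕ) (f : ℕ → ℕ) (h : ∀ i < N, f i < 2 ^ w) : pk w N f < 2 ^ (w * N) := by
  induction N with
  | zero => simp [pk_zero]
  | succ N ih =>
    rw [pk_succ]
    have h1 := ih fun i hi => h i (by omega)
    have h2 : f N + 1 ≤ 2 ^ w := h N (by omega)
    calc pk w N f + f N * 2 ^ (w * N) < 2 ^ (w * N) + f N * 2 ^ (w * N) := by omega
      _ = (f N + 1) * 2 ^ (w * N) := by ring
      _ ≤ 2 ^ w * 2 ^ (w * N) := Nat.mul_le_mul_right _ h2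
      _ = 2 ^ (w * (N + 1)) := by rw [← pow_add]; congr 1; ring

theorem pk_add (w N : ℕ) (f g : ℕ → ℕ) : pk w N f + pk w N g = pk w N (fun i => f i + g i) := by
  unfold pk
  rw [← sum_add_distrib]
  exact sum_congr rfl fun i _ => by ring

theorem pk_mul (w N c : ℕ) (f : ℕ → ℕ) : c * pk w N f = pk w N (fun i => c * f i) := by
  unfold pk
  rw [mul_sum]
  exact sum_congr rfl fun i _ => by ring

/-- Concatenation. -/
theorem pk_append (w M N : ℕ) (f : ℕ → ℕ) :
    pk w (M + N) f = pk w M f + pk w N (fun i => f (M + i)) * 2 ^ (w * M) := by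
  unfold pk
  rw [sum_range_add, sum_mul]
  congr 1
  refine sum_congr rfl fun i _ => ?_
  rw [mul_add, pow_add]
  ring

/-- Regrouping: blocks of `M` digits. -/
theorem pk_blocks (w M N : ℕ) (f : ℕ → ℕ) :
    pk w (N * M) f = pk (w * M) N (fun b => pk w M (fun h => f (b * M + h))) := by
  induction N with
  | zero => simp [pk_zero]
  | succ N ih =>
    rw [pk_succ, ← ih, Nat.succ_mul, pk_append]
    congr 2
    congr 1
    ring

/-- Extension by zeros. -/
theorem pk_extend (w N M : ℕ) (f : ℕ → ℕ) (h : N ≤ M) :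
    pk w N f = pk w M (fun i => if i < N then f i else 0) := by
  obtain ⟨r, rfl⟩ := Nat.exists_eq_add_of_le h
  rw [pk_append]
  have h1 : pk w r (fun i => if N + i < N then f (N + i) else 0) = 0 := by
    unfold pk
    refine sum_eq_zero fun i _ => ?_
    simp
  rw [h1, zero_mul, add_zero]
  exact pk_congr _ _ fun i hi => by simp [hi]

/-- `&&&` on a two-part number. -/
theorem land_split (w a b x y : ℕ) (ha : a < 2 ^ w) (hb : b < 2 ^ w) :
    (a + 2 ^ w * x) &&& (b + 2 ^ w * y) = (a &&& b) + 2 ^ w * (x &&& y) := by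
  have hab : a &&& b < 2 ^ w := Nat.and_lt_two_pow _ hb
  apply Nat.eq_of_testBit_eq
  intro i
  rw [Nat.testBit_and, add_comm a, add_comm b, add_comm (a &&& b),
    Nat.testBit_two_pow_mul_add _ ha, Nat.testBit_two_pow_mul_add _ hb,
    Nat.testBit_two_pow_mul_add _ hab]
  split <;> rw [Nat.testBit_and]

/-- `&&&` acts digit by digit. -/
theorem pk_land (w N : ℕ) (f g : ℕ → ℕ) (hf : ∀ i < N, f i < 2 ^ w) (hg : ∀ i < N, g i < 2 ^ w) :
    pk w N f &&& pk w N g = pk w N (fun i => f i &&& g i) := by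
  induction N generalizing f g with
  | zero => simp [pk_zero]
  | succ N ih =>
    rw [pk_succ', pk_succ', pk_succ', land_split _ _ _ _ _ (hf 0 (by omega)) (hg 0 (by omega)),
      ih _ _ (fun i hi => hf (i + 1) (by omega)) (fun i hi => hg (i + 1) (by omega))]

/-- Digits are unique. -/
theorem pk_inj (w N : ℕ) (f g : ℕ → ℕ) (hf : ∀ i < N, f i < 2 ^ w) (hg : ∀ i < N, g i < 2 ^ w)
    (h : pk w N f = pk w N g) : ∀ i < N, f i = g i := by
  induction N generalizing f g with
  | zero => intro i hi; omega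
  | succ N ih =>
    rw [pk_succ', pk_succ'] at h
    have h0 : f 0 = g 0 := by
      have := congrArg (· % 2 ^ w) h
      simpa [Nat.add_mul_mod_self_left, Nat.mod_eq_of_lt (hf 0 (by omega)),
        Nat.mod_eq_of_lt (hg 0 (by omega))] using this
    have h1 : pk w N (fun i => f (i + 1)) = pk w N (fun i => g (i + 1)) := by
      rw [h0] at h
      exact Nat.eq_of_mul_eq_mul_left (by positivity) (Nat.add_left_cancel h)
    intro i hi
    rcases i with _ | i
    · exact h0
    · exact ih _ _ (fun i hi => hf (i + 1) (by omega)) (fun i hi => hg (i + 1) (by omega)) h1 i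
        (by omega)

/-- Every number below `2 ^ (w * N)` is packed. -/
theorem exists_pk (w N x : ℕ) (h : x < 2 ^ (w * N)) :
    x = pk w N (fun i => x / 2 ^ (w * i) % 2 ^ w) := by
  induction N generalizing x with
  | zero => simp [pk_zero] at *; omega
  | succ N ih =>
    rw [pk_succ']
    have h1 : x / 2 ^ w < 2 ^ (w * N) := by
      rw [Nat.div_lt_iff_lt_mul (by positivity), ← pow_add]
      exact lt_of_lt_of_eq h (by rw [mul_add, mul_one])
    have h2 := ih _ h1
    have h3 : pk w N (fun i => x / 2 ^ (w * (i + 1)) % 2 ^ w) = x / 2 ^ w := by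
      rw [h2]
      refine pk_congr _ _ fun i _ => ?_
      rw [Nat.div_div_eq_div_mul, ← pow_add]
      congr 3
      ring
    rw [h3]
    simp only [mul_zero, pow_zero, Nat.div_one]
    exact (Nat.mod_add_div x (2 ^ w)).symm

/-- Shifting right by whole digits. -/
theorem pk_shiftRight (w N q : ℕ) (f : ℕ → ℕ) (hf : ∀ i, f i < 2 ^ w) (h0 : ∀ i, N ≤ i → f i = 0) :
    pk w N f >>> (q * w) = pk w N (fun i => f (i + q)) := by
  have h1 : pk w N f = pk w (q + N) f := by
    rw [pk_extend w N (q + N) f (by omega)]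
    refine pk_congr _ _ fun i _ => ?_
    by_cases h : i < N
    · simp [h]
    · simp [h, h0 i (by omega)]
  rw [h1, pk_append, Nat.shiftRight_eq_div_pow, mul_comm q w, Nat.add_mul_div_right _ _
    (by positivity), Nat.div_eq_of_lt (pk_lt _ _ _ fun i _ => hf i), zero_add]
  exact pk_congr _ _ fun i _ => by rw [add_comm]

end Q158.KL
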