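import Pool.Agent.Q158.KL.Count

/-!
# Choice of the root
-/

namespace Q158.KL

theorem Gd_iter (d : ℤ) (j : ℕ) : ∀ u, ∃ i ≤ 2 * j, (Gd d)^[j] u = (Td d)^[i] u := by
  induction j with
  | zero => intro u; exact ⟨0, le_rfl, rfl⟩
  | succ j ih =>
    intro u
    rw [Function.iterate_succ_apply]
    obtain ⟨i, hi, h⟩ := ih (Gd d u)
    rw [h]
    unfold Gd
    split_ifs
    · exact ⟨i + 2, by omega, by rw [Function.iterate_add_apply]; rfl⟩
    · exact ⟨i + 1, by omega, by rw [Function.iterate_succ_apply]⟩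

/-- Paths of the tree as orbits of `Td`, with the same bound. -/
theorem Td_path (d B : ℤ) (j : ℕ) : ∀ v, (∀ i ≤ j, 0 < (Gd d)^[i] v ∧ (Gd d)^[i] v ≤ B) →
    ∃ t ≤ 2 * j, (Td d)^[t] v = (Gd d)^[j] v ∧ ∀ s ≤ t, 0 < (Td d)^[s] v ∧ (Td d)^[s] v ≤ B := by
  induction j with
  | zero =>
    intro v h
    refine ⟨0, le_rfl, rfl, fun s hs => ?_⟩
    obtain rfl : s = 0 := by omega
    exact h 0 le_rfl
  | succ j ih =>
    intro v h
    have h0 := h 0 (by omega)
    rw [Function.iterate_zero_apply] at h0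
    obtain ⟨t, ht, htv, hts⟩ := ih (Gd d v) (fun i hi => by
      rw [← Function.iterate_succ_apply]; exact h (i + 1) (by omega))
    rw [Function.iterate_succ_apply]
    by_cases hv : v % 2 = 0
    · have hG : Gd d v = Td d (Td d v) := by unfold Gd; rw [if_pos hv]
      have hT : Td d v = v / 2 := by unfold Td; rw [if_pos hv]
      refine ⟨t + 2, by omega, ?_, ?_⟩
      · rw [← htv, hG, Function.iterate_add_apply]; rfl
      · intro s hs
        rcases s with _ | _ | s
        · exact h0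
        · rw [Function.iterate_succ_apply, Function.iterate_zero_apply, hT]
          omega
        · have := hts s (by omega)
          rw [hG] at this
          exact this
    · have hG : Gd d v = Td d v := by unfold Gd; rw [if_neg hv]
      refine ⟨t + 1, by omega, ?_, ?_⟩
      · rw [← htv, hG, Function.iterate_succ_apply]
      · intro s hs
        rcases s with _ | s
        · exact h0
        · have := hts s (by omega)
          rw [hG] at this
          exact this

theorem Td_two_pow (d a : ℤ) (e : ℕ) : (Td d)^[e] (2 ^ e * a) = a := by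
  induction e with
  | zero => simp
  | succ e ih =>
    rw [Function.iterate_succ_apply]
    have : Td d (2 ^ (e + 1) * a) = 2 ^ e * a := by
      have h : (2 : ℤ) ^ (e + 1) * a = 2 * (2 ^ e * a) := by ring
      unfold Td
      rw [h, if_pos (by omega), Int.mul_ediv_cancel_left _ (by norm_num)]
    rw [this, ih]

theorem Td_neg (d n : ℤ) (hd : d % 2 = 1) : Td d (-n) = -Td (-d) n := by
  unfold Td
  split_ifs <;> omega

theorem Td_neg_iter (d : ℤ) (hd : d % 2 = 1) (j : ℕ) : ∀ n, (Td d)^[j] (-n) = -(Td (-d))^[j] n := by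
  induction j with
  | zero => intro n; rfl
  | succ j ih =>
    intro n
    rw [Function.iterate_succ_apply, Function.iterate_succ_apply, Td_neg d n hd, ih]

/-- For each `u` only finitely many `2 ^ e * a` lie on the orbit of `u`. -/
theorem finite_hits (d a : ℤ) (ha : a ≠ 0) (u : ℤ) :
    {e : ℕ | ∃ j, (Td d)^[j] u = 2 ^ e * a}.Finite := by
  by_cases hne : ∃ e j, (Td d)^[j] u = 2 ^ e * a
  swap
  · convert Set.finite_empty
    ext e
    simp only [Set.mem_ofPred_eq, Set.mem_empty_iff_false, iff_false]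
    exact fun h => hne ⟨e, h⟩
  obtain ⟨e0, j0, h0⟩ := hne
  have hτ : (Td d)^[e0 + j0] u = a := by rw [Function.iterate_add_apply, h0, Td_two_pow]
  set τ := e0 + j0
  by_cases hper : ∃ p, 0 < p ∧ (Td d)^[p] a = a
  · obtain ⟨p, hp, hpa⟩ := hper
    have hfin : (Set.range (fun j => (Td d)^[j] u)).Finite := by
      refine ((Set.finite_Iio τ).image (fun j => (Td d)^[j] u) |>.union
        ((Set.finite_Iio p).image (fun j => (Td d)^[j] a))).subset ?_
      rintro _ ⟨j, rfl⟩
      rcases lt_or_ge j τ with hj | hj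
      · exact Or.inl ⟨j, hj, rfl⟩
      · right
        refine ⟨(j - τ) % p, Nat.mod_lt _ hp, ?_⟩
        have h1 : (Td d)^[j] u = (Td d)^[j - τ] a := by
          rw [← hτ, ← Function.iterate_add_apply, Nat.sub_add_cancel hj]
        show (Td d)^[(j - τ) % p] a = (Td d)^[j] u
        rw [h1]
        exact Function.IsPeriodicPt.iterate_mod_apply (show Function.IsPeriodicPt (Td d) p a from hpa)
          (j - τ)
    have hinj : Set.InjOn (fun e : ℕ => (2 : ℤ) ^ e * a)
        ((fun e : ℕ => (2 : ℤ) ^ e * a) ⁻¹' (Set.range (fun j => (Td d)^[j] u))) := by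
      intro e _ e' _ h
      have h1 : (2 : ℤ) ^ e = 2 ^ e' := mul_right_cancel₀ ha h
      exact Int.pow_right_injective (by norm_num) h1
    refine (hfin.preimage hinj).subset ?_
    rintro e ⟨j, hj⟩
    exact ⟨j, hj⟩
  · refine (Set.finite_Iic τ).subset ?_
    rintro e ⟨j, hj⟩
    have h1 : (Td d)^[e + j] u = a := by rw [Function.iterate_add_apply, hj, Td_two_pow]
    rcases lt_trichotomy (e + j) τ with h | h | h
    · exfalso
      refine hper ⟨τ - (e + j), by omega, ?_⟩
      conv_lhs => rw [← h1]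
      rw [← Function.iterate_add_apply, Nat.sub_add_cancel h.le, hτ]
    · show e ≤ τ
      omega
    · exfalso
      refine hper ⟨e + j - τ, by omega, ?_⟩
      conv_lhs => rw [← hτ]
      rw [← Function.iterate_add_apply, Nat.sub_add_cancel h.le, h1]

theorem node_or (d a : ℤ) (hd : ¬ (3 : ℤ) ∣ d) (ha : ¬ (3 : ℤ) ∣ a) :
    Node d a ∨ Node d (2 * a) := by
  unfold Node
  have h1 : a % 3 = 1 ∨ a % 3 = 2 := by omega
  have h2 : d % 3 = 1 ∨ d % 3 = 2 := by omega
  rcases h1 with h1 | h1 <;> rcases h2 with h2 | h2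
  · right; omega
  · left; omega
  · left; omega
  · right; omega

theorem not_dvd_two_pow (a : ℤ) (ha : ¬ (3 : ℤ) ∣ a) (e : ℕ) : ¬ (3 : ℤ) ∣ 2 ^ e * a := by
  intro h
  rcases Int.prime_three.dvd_or_dvd h with h | h
  · have := Int.prime_three.dvd_of_dvd_pow h
    omega
  · exact ha h

/-- There is an `e` such that `2 ^ e * a` is a node and no orbit which starts in `(0, V)` hits it. -/
theorem exists_root (d a : ℤ) (hd : ¬ (3 : ℤ) ∣ d) (ha : ¬ (3 : ℤ) ∣ a) (V : ℤ) :
    ∃ e : ℕ, Node d (2 ^ e * a) ∧ ∀ v : ℤ, 0 < v → v < V → ∀ j, (Td d)^[j] v ≠ 2 ^ e * a := by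
  have ha0 : a ≠ 0 := by rintro rfl; exact ha (dvd_zero _)
  have hfin : (⋃ v ∈ Set.Ioo (0 : ℤ) V, {e : ℕ | ∃ j, (Td d)^[j] v = 2 ^ e * a}).Finite :=
    (Set.finite_Ioo 0 V).biUnion fun v _ => finite_hits d a ha0 v
  obtain ⟨N, hN⟩ := hfin.bddAbove
  have hgood : ∀ e, N < e → ∀ v : ℤ, 0 < v → v < V → ∀ j, (Td d)^[j] v ≠ 2 ^ e * a := by
    intro e he v hv0 hv j hj
    have : e ≤ N := hN (by
      simp only [Set.mem_iUnion, Set.mem_Ioo, Set.mem_ofPred_eq]
      exact ⟨v, ⟨hv0, hv⟩, j, hj⟩)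
    omega
  rcases node_or d (2 ^ (N + 1) * a) hd (not_dvd_two_pow a ha _) with h | h
  · exact ⟨N + 1, h, hgood _ (by omega)⟩
  · refine ⟨N + 2, ?_, hgood _ (by omega)⟩
    have : (2 : ℤ) ^ (N + 2) * a = 2 * (2 ^ (N + 1) * a) := by ring
    rw [this]
    exact h

end Q158.KL
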