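import Mathlib

/-!
# A weighted tree inequality
-/

namespace Q158.KL

open Finset

/-- Sub-harmonic weights on a backward orbit: if `θ W v ≤ ∑ W u` over the `u ∈ R` with `G u = v`,
for all `v ∈ S ⊆ R`, then the weight of the root is bounded by the weights on `R \ S`, discounted
by `θ ^ (- depth)`. -/
theorem tree_ineq {α : Type*} [DecidableEq α] (G : α → α) (ρ : α) (R S : Finset α) (hSR : S ⊆ R) (W : α → ℝ)
    (θ : ℝ) (hθ : 1 < θ) (hW : ∀ u, 0 ≤ W u) (hit : ∀ u ∈ R, ∃ j, G^[j] u = ρ) (hρ : ρ ∈ S)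
    (hsub : ∀ v ∈ S, θ * W v ≤ ∑ u ∈ R with G u = v, W u) :
    W ρ * (1 - θ⁻¹) ≤ ∑ u ∈ R \ S, W u * (θ⁻¹) ^ sInf {j | G^[j] u = ρ} := by
  set dep : α → ℕ := fun u => sInf {j | G^[j] u = ρ} with hdep
  have hθ0 : 0 < θ := by linarith
  have hi0 : 0 < θ⁻¹ := inv_pos.2 hθ0
  have hi1 : θ⁻¹ ≤ 1 := inv_le_one_of_one_le₀ hθ.le
  have hdρ : dep ρ = 0 := by
    have : sInf {j | G^[j] ρ = ρ} ≤ 0 := Nat.sInf_le (by simp)
    exact Nat.le_zero.1 this
  have hstep : ∀ u ∈ R, u ≠ ρ → dep u = dep (G u) + 1 := by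
    intro u hu hne
    have hmem : G^[dep u] u = ρ := Nat.sInf_mem (s := {j | G^[j] u = ρ}) (hit u hu)
    have hpos : dep u ≠ 0 := by
      intro h0
      rw [h0] at hmem
      exact hne hmem
    obtain ⟨r, hr⟩ := Nat.exists_eq_succ_of_ne_zero hpos
    rw [hr, Function.iterate_succ_apply] at hmem
    have h1 : dep (G u) ≤ r := Nat.sInf_le (s := {j | G^[j] (G u) = ρ}) hmem
    have h2 : G^[dep (G u)] (G u) = ρ := Nat.sInf_mem (s := {j | G^[j] (G u) = ρ}) ⟨r, hmem⟩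
    have h3 : dep u ≤ dep (G u) + 1 := Nat.sInf_le (s := {j | G^[j] u = ρ}) (by
      show G^[dep (G u) + 1] u = ρ
      rw [Function.iterate_succ_apply]; exact h2)
    omega
  -- the sum over `S`
  have h1 : ∑ v ∈ S, W v * (θ⁻¹) ^ dep v ≤ ∑ u ∈ R, W u * (θ⁻¹) ^ (dep (G u) + 1) := by
    calc ∑ v ∈ S, W v * (θ⁻¹) ^ dep v
        ≤ ∑ v ∈ S, ∑ u ∈ R with G u = v, W u * (θ⁻¹) ^ (dep (G u) + 1) := by
          refine sum_le_sum fun v hv => ?_
          have h2 : ∑ u ∈ R with G u = v, W u * (θ⁻¹) ^ (dep (G u) + 1) =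
              (∑ u ∈ R with G u = v, W u) * (θ⁻¹) ^ (dep v + 1) := by
            rw [sum_mul]
            refine sum_congr rfl fun u hu => ?_
            rw [(mem_filter.1 hu).2]
          rw [h2]
          calc W v * (θ⁻¹) ^ dep v = (θ * W v) * (θ⁻¹) ^ (dep v + 1) := by
                rw [pow_succ]; field_simp
            _ ≤ _ := mul_le_mul_of_nonneg_right (hsub v hv) (by positivity)
      _ = ∑ u ∈ R with G u ∈ S, W u * (θ⁻¹) ^ (dep (G u) + 1) := by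
          rw [← sum_fiberwise_of_maps_to (s := R.filter (fun u => G u ∈ S)) (t := S)
            (g := G) (fun u hu => (mem_filter.1 hu).2)]
          refine sum_congr rfl fun v hv => ?_
          refine sum_congr ?_ fun _ _ => rfl
          ext u
          simp only [mem_filter]
          constructor
          · rintro ⟨h, rfl⟩; exact ⟨⟨h, hv⟩, rfl⟩
          · rintro ⟨⟨h, _⟩, h'⟩; exact ⟨h, h'⟩
      _ ≤ _ := sum_le_sum_of_subset_of_nonneg (filter_subset _ _)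
          fun u _ _ => mul_nonneg (hW u) (by positivity)
  have hρR : ρ ∈ R := hSR hρ
  have h2 : ∑ u ∈ R, W u * (θ⁻¹) ^ (dep (G u) + 1) ≤
      W ρ * θ⁻¹ + ∑ u ∈ R.erase ρ, W u * (θ⁻¹) ^ dep u := by
    rw [← add_sum_erase R _ hρR]
    refine add_le_add ?_ (sum_le_sum fun u hu => ?_)
    · refine mul_le_mul_of_nonneg_left ?_ (hW ρ)
      rw [pow_succ]
      exact mul_le_of_le_one_left hi0.le (pow_le_one₀ hi0.le hi1)
    · rw [hstep u (mem_of_mem_erase hu) (ne_of_mem_erase hu)]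
  have h3 : ∑ v ∈ S, W v * (θ⁻¹) ^ dep v = W ρ + ∑ v ∈ S.erase ρ, W v * (θ⁻¹) ^ dep v := by
    rw [← add_sum_erase S _ hρ, hdρ, pow_zero, mul_one]
  have h4 : ∑ u ∈ R.erase ρ, W u * (θ⁻¹) ^ dep u =
      ∑ v ∈ S.erase ρ, W v * (θ⁻¹) ^ dep v + ∑ u ∈ R \ S, W u * (θ⁻¹) ^ dep u := by
    rw [← sum_sdiff (erase_subset_erase ρ hSR), add_comm]
    congr 1
    refine sum_congr ?_ fun _ _ => rfl
    ext u
    simp only [mem_sdiff, mem_erase]
    constructor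
    · rintro ⟨⟨h5, h6⟩, h7⟩
      exact ⟨h6, fun h8 => h7 ⟨h5, h8⟩⟩
    · rintro ⟨h5, h6⟩
      exact ⟨⟨fun h => h6 (h ▸ hρ), h5⟩, fun h => h6 h.2⟩
  have : W ρ * (1 - θ⁻¹) = W ρ - W ρ * θ⁻¹ := by ring
  rw [this]
  linarith

end Q158.KL
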