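import Pool.Agent.Q158.KL.Map
import Pool.Agent.Q158.KL.Tree

/-!
# The weight `c (v mod 3 ^ (k + 2)) |v| ^ (-γ)` is sub-harmonic on the backward tree
-/

namespace Q158.KL

open Finset

/-- The numerical conditions which relate the integer weights to the exponent. -/
structure Num (A B1 B2 D : ℕ) (γ θ θ' : ℝ) : Prop where
  D0 : 0 < D
  γ0 : 0 < γ
  γ1 : γ ≤ 1
  θ1 : 1 < θ
  t1 : 1 ≤ θ'
  t2 : θ' ≤ 2
  hA : θ * (A / D) ≤ (4 : ℝ) ^ (-γ)
  hB2 : θ * (B2 / D) ≤ (4 / 3 * θ') ^ (-γ)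
  hB1 : θ * (B1 / D) ≤ (2 / 3 * θ') ^ (-γ)

/-- The weight. -/
noncomputable def wt (k : ℕ) (c : ℕ → ℕ) (γ : ℝ) (d v : ℤ) : ℝ :=
  c (ix k d v) * (|v| : ℝ) ^ (-γ)

theorem wt_nonneg (k : ℕ) (c : ℕ → ℕ) (γ : ℝ) (d v : ℤ) : 0 ≤ wt k c γ d v := by
  unfold wt; positivity

theorem sub_harmonic {k A B1 B2 D : ℕ} {c e : ℕ → ℕ} (hC : Cert k A B1 B2 D c e) {γ θ θ' : ℝ}
    (hN : Num A B1 B2 D γ θ θ') (d v : ℤ) (hd : ¬ (3 : ℤ) ∣ d) (hd2 : d % 2 = 1)
    (hv : Node d v) (hv0 : 0 < v) (h1 : d < 2 * v) (h2 : -(d : ℝ) ≤ 2 * (θ' - 1) * v) :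
    ∃ U : Finset ℤ, (∀ u ∈ U, Node d u ∧ 0 < u ∧ u ≤ 4 * v ∧ Gd d u = v) ∧
      θ * wt k c γ d v ≤ ∑ u ∈ U, wt k c γ d u := by
  have hvr : (0 : ℝ) < v := by exact_mod_cast hv0
  have hD : (0 : ℝ) < D := by exact_mod_cast hN.D0
  have hθ : 0 < θ := by linarith [hN.θ1]
  have hvp : (0 : ℝ) < (v : ℝ) ^ (-γ) := Real.rpow_pos_of_pos hvr _
  have hwv : wt k c γ d v = c (ix k d v) * (v : ℝ) ^ (-γ) := by rw [wt, abs_of_pos hvr]
  obtain ⟨hn4, hi4⟩ := child_four k d v hd hv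
  have hw4 : θ * (A / D * c ((4 * ix k d v + 2) % 3 ^ (k + 1))) * (v : ℝ) ^ (-γ) ≤
      wt k c γ d (4 * v) := by
    rw [wt, hi4]
    push_cast
    rw [abs_of_pos (by positivity : (0 : ℝ) < 4 * v), Real.mul_rpow (by norm_num) hvr.le]
    have := mul_le_mul_of_nonneg_right hN.hA
      (by positivity : (0 : ℝ) ≤ c ((4 * ix k d v + 2) % 3 ^ (k + 1)) * (v : ℝ) ^ (-γ))
    calc _ = θ * (A / D) * (c ((4 * ix k d v + 2) % 3 ^ (k + 1)) * (v : ℝ) ^ (-γ)) := by ring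
      _ ≤ _ := this
      _ = _ := by ring
  have hlt := ix_lt k d v
  -- the second child
  have hsec : ∀ (B : ℕ) (f : ℝ) (u : ℤ) (j : ℕ), 0 < f → θ * (B / D) ≤ (f * θ') ^ (-γ) →
      0 < u → (u : ℝ) ≤ f * θ' * v → ix k d u % 3 ^ k = j →
      θ * (B / D * e j) * (v : ℝ) ^ (-γ) ≤ wt k c γ d u := by
    intro B f u j hf hB hu hu2 hj
    have hur : (0 : ℝ) < u := by exact_mod_cast hu
    have ht : (0 : ℝ) < θ' := by linarith [hN.t1]
    have hce : (e j : ℝ) ≤ c (ix k d u) := by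
      have := hC.h3 (ix k d u) (ix_lt k d u)
      rw [hj] at this
      exact_mod_cast this
    have hpow : (f * θ') ^ (-γ) * (v : ℝ) ^ (-γ) ≤ (u : ℝ) ^ (-γ) := by
      rw [← Real.mul_rpow (by positivity) hvr.le]
      exact Real.rpow_le_rpow_of_nonpos hur hu2 (by linarith [hN.γ0])
    rw [wt, abs_of_pos hur]
    calc θ * (B / D * e j) * (v : ℝ) ^ (-γ) = e j * (θ * (B / D) * (v : ℝ) ^ (-γ)) := by ring
      _ ≤ e j * ((f * θ') ^ (-γ) * (v : ℝ) ^ (-γ)) :=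
          mul_le_mul_of_nonneg_left (mul_le_mul_of_nonneg_right hB hvp.le) (by positivity)
      _ ≤ e j * (u : ℝ) ^ (-γ) := mul_le_mul_of_nonneg_left hpow (by positivity)
      _ ≤ c (ix k d u) * (u : ℝ) ^ (-γ) :=
          mul_le_mul_of_nonneg_right hce (Real.rpow_pos_of_pos hur _).le
  have hbase : ∀ (a b : ℕ) (z : ℝ), D * c (ix k d v) ≤ a + b → (θ * (a / D) + θ * (b / D)) *
      (v : ℝ) ^ (-γ) ≤ z → θ * wt k c γ d v ≤ z := by
    intro a b z h hz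
    refine le_trans ?_ hz
    rw [hwv]
    have h' : (D : ℝ) * c (ix k d v) ≤ a + b := by exact_mod_cast h
    have h'' : (c (ix k d v) : ℝ) ≤ a / D + b / D := by
      rw [← add_div, le_div_iff₀ hD]
      linarith
    calc θ * (c (ix k d v) * (v : ℝ) ^ (-γ)) = θ * c (ix k d v) * (v : ℝ) ^ (-γ) := by ring
      _ ≤ θ * (a / D + b / D) * (v : ℝ) ^ (-γ) :=
          mul_le_mul_of_nonneg_right (mul_le_mul_of_nonneg_left h'' hθ.le) hvp.le
      _ = _ := by ring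
  have h4u : Node d (4 * v) ∧ 0 < 4 * v ∧ 4 * v ≤ 4 * v ∧ Gd d (4 * v) = v :=
    ⟨hn4, by linarith, le_rfl, Gd_four d v⟩
  rcases (show ix k d v % 3 = 0 ∨ ix k d v % 3 = 1 ∨ ix k d v % 3 = 2 by omega) with h0 | h0 | h0
  · obtain ⟨u, hu, hnu, hiu⟩ := child_even k d v hd hv h0
    have hu0 : 0 < u := by omega
    have hur : (3 : ℝ) * u = 4 * v - 2 * d := by exact_mod_cast hu
    have hub : (u : ℝ) ≤ 4 / 3 * θ' * v := by nlinarith
    have hub4 : u ≤ 4 * v := by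
      have : (u : ℝ) ≤ 4 * v := by nlinarith [hN.t2]
      exact_mod_cast this
    have hne : 4 * v ≠ u := by omega
    refine ⟨{4 * v, u}, ?_, ?_⟩
    · intro x hx
      rw [mem_insert, mem_singleton] at hx
      rcases hx with rfl | rfl
      · exact h4u
      · exact ⟨hnu, hu0, hub4, Gd_even d v _ hd2 hu⟩
    · rw [sum_pair hne]
      refine hbase _ _ _ (hC.h0 _ hlt h0) ?_
      have h5 := hsec B2 (4 / 3) u _ (by norm_num) hN.hB2 hu0 hub hiu
      rw [add_mul]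
      refine add_le_add ?_ ?_
      · refine le_trans (le_of_eq ?_) hw4
        push_cast; ring
      · refine le_trans (le_of_eq ?_) h5
        push_cast; ring
  · refine ⟨{4 * v}, ?_, ?_⟩
    · intro x hx
      rw [mem_singleton] at hx
      rw [hx]; exact h4u
    · rw [sum_singleton]
      refine hbase (A * c ((4 * ix k d v + 2) % 3 ^ (k + 1))) 0 _ (hC.h1 _ hlt h0) ?_
      refine le_trans (le_of_eq ?_) hw4
      push_cast; ring
  · obtain ⟨u, hu, hnu, hiu⟩ := child_odd k d v hd hv h0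
    have hu0 : 0 < u := by omega
    have hur : (3 : ℝ) * u = 2 * v - d := by exact_mod_cast hu
    have hub : (u : ℝ) ≤ 2 / 3 * θ' * v := by nlinarith
    have hub4 : u ≤ 4 * v := by
      have : (u : ℝ) ≤ 4 * v := by nlinarith [hN.t2]
      exact_mod_cast this
    have hne : 4 * v ≠ u := by omega
    refine ⟨{4 * v, u}, ?_, ?_⟩
    · intro x hx
      rw [mem_insert, mem_singleton] at hx
      rcases hx with rfl | rfl
      · exact h4u
      · exact ⟨hnu, hu0, hub4, Gd_odd d v _ hd2 hu⟩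
    · rw [sum_pair hne]
      refine hbase _ _ _ (hC.h2 _ hlt h0) ?_
      have h5 := hsec B1 (2 / 3) u _ (by norm_num) hN.hB1 hu0 hub hiu
      rw [add_mul]
      refine add_le_add ?_ ?_
      · refine le_trans (le_of_eq ?_) hw4
        push_cast; ring
      · refine le_trans (le_of_eq ?_) h5
        push_cast; ring

end Q158.KL
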